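import Pool.Agent.H.MP_2e5387_al.Embed

/-!
# The chains for `m < n`

An integral chain with levels `0, ..., m`, where `m = k + 2`. Levels `1, ..., m - 1` carry the
indices `1, 2, 3` and the top level carries the indices `0, 1, 2, 3`.
-/

namespace Pool.Agent.H.MP_2e5387_al.Chain

/-- Valid pairs (level, index). -/
def Vd (m : ℕ) (p : ℕ × ℕ) : Prop :=
  (p.1 = 0 ∧ p.2 = 0) ∨ (1 ≤ p.1 ∧ p.1 < m ∧ 1 ≤ p.2 ∧ p.2 ≤ 3) ∨ (p.1 = m ∧ p.2 ≤ 3)

/-- Normal form. -/
def nrm (m L t : ℕ) : ℕ × ℕ := (L, if L = 0 then 0 else if L < m then max 1 t else t)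

/-- Product of indices. -/
def mt (s t : ℕ) : ℕ := if s = 0 ∨ t = 0 then 0 else max 1 (s + t - 3)

theorem mt_comm (s t : ℕ) : mt s t = mt t s := by
  unfold mt; split_ifs <;> omega

theorem mt_le {s t : ℕ} (hs : s ≤ 3) (ht : t ≤ 3) : mt s t ≤ 3 := by
  unfold mt; split_ifs <;> omega

theorem mt_assoc {s t r : ℕ} (hs : s ≤ 3) (ht : t ≤ 3) (hr : r ≤ 3) :
    mt (mt s t) r = mt s (mt t r) := by
  interval_cases s <;> interval_cases t <;> interval_cases r <;> rfl

theorem mt_mono {s t r : ℕ} (h : s ≤ t) : mt r s ≤ mt r t := by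
  unfold mt; split_ifs <;> omega

theorem mt_max {s t : ℕ} (hs : s ≤ 3) (ht : t ≤ 3) : max 1 (mt (max 1 s) t) = max 1 (mt s t) := by
  interval_cases s <;> interval_cases t <;> rfl

/-- Multiplication on pairs. -/
def mulP (m : ℕ) (x y : ℕ × ℕ) : ℕ × ℕ := nrm m (x.1 + y.1 - m) (mt x.2 y.2)

/-- Source index. -/
def sx (m : ℕ) (x : ℕ × ℕ) : ℕ := if x.1 = m then x.2 else 0

/-- Addition on pairs. -/
def addP (m : ℕ) (x y : ℕ × ℕ) : ℕ × ℕ :=
  if x.1 = 0 then y else if y.1 = 0 then x
  else nrm m (min m (x.1 + y.1)) (max (sx m x) (sx m y))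

theorem vd_nrm {m L t : ℕ} (hL : L ≤ m) (ht : t ≤ 3) : Vd m (nrm m L t) := by
  unfold Vd nrm; dsimp only; split_ifs <;> omega

variable {m : ℕ} {x y z : ℕ × ℕ}

theorem Vd.le1 (h : Vd m x) : x.1 ≤ m := by unfold Vd at h; omega
theorem Vd.le2 (h : Vd m x) : x.2 ≤ 3 := by unfold Vd at h; omega

theorem mul_valid (hx : Vd m x) (hy : Vd m y) : Vd m (mulP m x y) := by
  have := hx.le1; have := hy.le1
  exact vd_nrm (by omega) (mt_le hx.le2 hy.le2)

theorem mul_comm' : mulP m x y = mulP m y x := by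
  unfold mulP; rw [add_comm, mt_comm]

theorem nrm_mul {L t : ℕ} (ht : t ≤ 3) (hy : Vd m y) :
    mulP m (nrm m L t) y = nrm m (L + y.1 - m) (mt t y.2) := by
  have h1 := hy.le1
  have h2 := hy.le2
  unfold mulP nrm
  dsimp only
  rw [Prod.mk.injEq]
  refine ⟨rfl, ?_⟩
  by_cases h0 : L + y.1 - m = 0
  · rw [if_pos h0, if_pos h0]
  · rw [if_neg h0, if_neg h0]
    by_cases h3 : L + y.1 - m < m
    · rw [if_pos h3, if_pos h3]
      rw [if_neg (by omega)]
      by_cases h4 : L < m
      · rw [if_pos h4, mt_max ht h2]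
      · rw [if_neg h4]
    · rw [if_neg h3, if_neg h3, if_neg (by omega), if_neg (by omega)]

theorem mul_assoc' (hx : Vd m x) (hy : Vd m y) (hz : Vd m z) :
    mulP m (mulP m x y) z = mulP m x (mulP m y z) := by
  have h1 := hx.le1; have h2 := hy.le1; have h3 := hz.le1
  rw [mul_comm' (x := x) (y := mulP m y z)]
  change mulP m (nrm m _ _) z = mulP m (nrm m _ _) x
  rw [nrm_mul (mt_le hx.le2 hy.le2) hz, nrm_mul (mt_le hy.le2 hz.le2) hx,
    mt_assoc hx.le2 hy.le2 hz.le2, mt_comm x.2]
  congr 1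
  omega

theorem nrm_self (hm : 2 ≤ m) (hx : Vd m x) : nrm m x.1 x.2 = x := by
  obtain ⟨a, b⟩ := x
  unfold Vd at hx
  unfold nrm
  dsimp only at *
  rw [Prod.mk.injEq]
  refine ⟨rfl, ?_⟩
  split_ifs <;> omega

theorem mt_three {t : ℕ} (ht : t ≤ 3) : mt 3 t = t := by
  interval_cases t <;> rfl

theorem one_mul' (hm : 2 ≤ m) (hx : Vd m x) : mulP m (m, 3) x = x := by
  have : mulP m (m, 3) x = nrm m x.1 x.2 := by
    unfold mulP
    dsimp only
    rw [mt_three hx.le2]
    congr 1
    omega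
  rw [this, nrm_self hm hx]

theorem vd_zero_iff (hx : Vd m x) (h : x.1 = 0) (hm : 2 ≤ m) : x = (0, 0) := by
  obtain ⟨a, b⟩ := x
  unfold Vd at hx
  dsimp only at *
  rw [Prod.mk.injEq]
  omega

theorem add_comm' (hm : 2 ≤ m) (hx : Vd m x) (hy : Vd m y) : addP m x y = addP m y x := by
  unfold addP
  rw [Nat.add_comm x.1, max_comm (sx m x)]
  split_ifs with h1 h2 h3 <;> try rfl
  rw [vd_zero_iff hx h1 hm, vd_zero_iff hy h2 hm]

theorem sx_le (hx : Vd m x) : sx m x ≤ 3 := by
  have := hx.le2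
  unfold sx; split_ifs <;> omega

theorem add_valid (hx : Vd m x) (hy : Vd m y) : Vd m (addP m x y) := by
  unfold addP
  split_ifs
  · exact hy
  · exact hx
  · exact vd_nrm (by omega) (max_le (sx_le hx) (sx_le hy))

theorem add_fst (hm : 2 ≤ m) (hx : Vd m x) (hy : Vd m y) : (addP m x y).1 = min m (x.1 + y.1) := by
  have := hx.le1; have := hy.le1
  unfold addP nrm
  split_ifs <;> (try dsimp only) <;> omega

theorem sx_add (hm : 2 ≤ m) (hx : Vd m x) (hy : Vd m y) :
    sx m (addP m x y) = max (sx m x) (sx m y) := by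
  have := hx.le1; have := hy.le1
  unfold addP
  split_ifs with h1 h2
  · have : sx m x = 0 := by unfold sx; rw [if_neg (by omega)]
    rw [this]; omega
  · have : sx m y = 0 := by unfold sx; rw [if_neg (by omega)]
    rw [this]; omega
  · by_cases h3 : min m (x.1 + y.1) = m
    · have e : sx m (nrm m (min m (x.1 + y.1)) (max (sx m x) (sx m y))) =
          max (sx m x) (sx m y) := by
        rw [h3]
        unfold nrm
        rw [if_neg (by omega : ¬ m = 0), if_neg (by omega : ¬ m < m)]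
        generalize max (sx m x) (sx m y) = k
        unfold sx
        rw [if_pos rfl]
      exact e
    · have e1 : sx m x = 0 := by unfold sx; rw [if_neg (by omega)]
      have e2 : sx m y = 0 := by unfold sx; rw [if_neg (by omega)]
      rw [e1, e2]
      unfold sx nrm
      rw [if_neg h3]; rfl

theorem add_ne (h1 : x.1 ≠ 0) (h2 : y.1 ≠ 0) :
    addP m x y = nrm m (min m (x.1 + y.1)) (max (sx m x) (sx m y)) := by
  unfold addP; rw [if_neg h1, if_neg h2]

theorem zero_add' (y : ℕ × ℕ) : addP m (0, 0) y = y := by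
  unfold addP; rw [if_pos rfl]

theorem add_assoc' (hm : 2 ≤ m) (hx : Vd m x) (hy : Vd m y) (hz : Vd m z) :
    addP m (addP m x y) z = addP m x (addP m y z) := by
  have := hx.le1; have := hy.le1; have := hz.le1
  have v00 : Vd m (0, 0) := by unfold Vd; simp
  by_cases h1 : x.1 = 0
  · rw [vd_zero_iff hx h1 hm, zero_add', zero_add']
  by_cases h2 : y.1 = 0
  · rw [vd_zero_iff hy h2 hm, zero_add', add_comm' hm hx v00, zero_add']
  by_cases h3 : z.1 = 0
  · rw [vd_zero_iff hz h3 hm, add_comm' hm (add_valid hx hy) v00, zero_add',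
      add_comm' hm hy v00, zero_add']
  have e1 := add_fst hm hx hy
  have e2 := add_fst hm hy hz
  rw [add_ne (x := addP m x y) (by omega) h3, add_ne (y := addP m y z) h1 (by omega),
    sx_add hm hx hy, sx_add hm hy hz, e1, e2, max_assoc]
  congr 1
  omega

/-- The lexicographic code. -/
def code (x : ℕ × ℕ) : ℕ := 4 * x.1 + x.2

theorem code_inj (hx : Vd m x) (hy : Vd m y) (h : code x = code y) : x = y := by
  have := hx.le2; have := hy.le2
  obtain ⟨a, b⟩ := x
  obtain ⟨c, d⟩ := y
  unfold code at h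
  dsimp only at *
  rw [Prod.mk.injEq]
  omega

theorem nrm_mono {L L' t t' : ℕ} (ht : t ≤ 3) (ht' : t' ≤ 3) (hL : L' ≤ m)
    (h : L < L' ∨ (L = L' ∧ t ≤ t')) : code (nrm m L t) ≤ code (nrm m L' t') := by
  unfold code nrm
  dsimp only
  split_ifs <;> omega

theorem code_le (hx : Vd m x) (hy : Vd m y) (h : code x ≤ code y) :
    x.1 < y.1 ∨ (x.1 = y.1 ∧ x.2 ≤ y.2) := by
  have := hx.le2; have := hy.le2
  unfold code at h
  omega

theorem mul_mono' (hx : Vd m x) (hy : Vd m y) (hz : Vd m z) (h : code y ≤ code z) :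
    code (mulP m x y) ≤ code (mulP m x z) := by
  have h1 := hx.le1; have h2 := hy.le1; have h3 := hz.le1
  have := hx.le2; have := hy.le2; have := hz.le2
  unfold mulP
  rcases code_le hy hz h with h4 | ⟨h4, h5⟩
  · by_cases h6 : x.1 + y.1 - m = x.1 + z.1 - m
    · rw [h6]
      unfold code nrm
      rw [if_pos (by omega), if_pos (by omega)]
    · exact nrm_mono (mt_le hx.le2 hy.le2) (mt_le hx.le2 hz.le2) (by omega) (by omega)
  · rw [h4]
    exact nrm_mono (mt_le hx.le2 hy.le2) (mt_le hx.le2 hz.le2) (by omega)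
      (Or.inr ⟨rfl, mt_mono h5⟩)

theorem sx_mono (hy : Vd m y) (hz : Vd m z) (h : code y ≤ code z) : sx m y ≤ sx m z := by
  have h2 := hy.le1; have h3 := hz.le1
  unfold sx
  rcases code_le hy hz h with h4 | ⟨h4, h5⟩
  · rw [if_neg (by omega)]; omega
  · split_ifs <;> omega

theorem add_mono' (hm : 2 ≤ m) (hx : Vd m x) (hy : Vd m y) (hz : Vd m z) (h : code y ≤ code z) :
    code (addP m x y) ≤ code (addP m x z) := by
  have h1 := hx.le1; have h2 := hy.le1; have h3 := hz.le1
  by_cases h4 : x.1 = 0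
  · rw [vd_zero_iff hx h4 hm, zero_add', zero_add']; exact h
  have v00 : Vd m (0, 0) := by unfold Vd; simp
  have hlt : z.1 ≠ 0 → code x ≤ code (addP m x z) := by
    intro h6
    rw [add_ne h4 h6]
    have := hx.le2
    unfold code nrm sx
    dsimp only
    split_ifs <;> omega
  by_cases h5 : y.1 = 0
  · rw [vd_zero_iff hy h5 hm, add_comm' hm hx v00, zero_add']
    by_cases h6 : z.1 = 0
    · rw [vd_zero_iff hz h6 hm, add_comm' hm hx v00, zero_add']
    · exact hlt h6
  · have h7 := code_le hy hz h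
    rw [add_ne h4 h5, add_ne h4 (by omega)]
    have h8 := sx_mono hy hz h
    have h9 := sx_le hx; have h10 := sx_le hy; have h11 := sx_le hz
    apply nrm_mono (by omega) (by omega) (by omega)
    by_cases h12 : min m (x.1 + y.1) = min m (x.1 + z.1)
    · right; exact ⟨h12, by omega⟩
    · left; omega

theorem mul_fst : (mulP m x y).1 = x.1 + y.1 - m := rfl

theorem mul_snd : (mulP m x y).2 =
    if x.1 + y.1 - m = 0 then 0 else if x.1 + y.1 - m < m then max 1 (mt x.2 y.2)
      else mt x.2 y.2 := rfl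

theorem mt_le_right {s t : ℕ} (hs : s ≤ 3) (ht : 1 ≤ t) : mt s t ≤ t := by
  unfold mt; split_ifs <;> omega

theorem mt_le_right' {s t : ℕ} (hs : s ≤ 3) : mt s t ≤ max 1 t := by
  unfold mt; split_ifs <;> omega

theorem mul_le_right' (hx : Vd m x) (hy : Vd m y) : code (mulP m x y) ≤ code y := by
  have h1 := hx.le1; have h2 := hy.le1
  have g1 := hx.le2; have g2 := hy.le2
  have k := mt_le g1 g2
  unfold code
  rw [mul_fst, mul_snd]
  unfold Vd at hy
  have k2 : 1 ≤ y.2 → mt x.2 y.2 ≤ y.2 := mt_le_right g1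
  have k3 : y.2 = 0 → mt x.2 y.2 = 0 := by
    intro h; unfold mt; rw [if_pos (Or.inr h)]
  split_ifs <;> omega

theorem mt_le_self {s t : ℕ} (hs : s ≤ 3) : mt s t ≤ t := by
  unfold mt; split_ifs <;> omega

theorem mt_zero_left (t : ℕ) : mt 0 t = 0 := by
  unfold mt; rw [if_pos (Or.inl rfl)]

theorem nrm_zero_min {L t : ℕ} : code (nrm m L 0) ≤ code (nrm m L t) := by
  unfold code nrm; dsimp only; split_ifs <;> omega

theorem hemi' (hm : 2 ≤ m) (hx : Vd m x) (hy : Vd m y) (hz : Vd m z) :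
    code (mulP m x (addP m y z)) ≤ code (addP m (mulP m x y) z) := by
  have h1 := hx.le1; have h2 := hy.le1; have h3 := hz.le1
  have g1 := hx.le2; have g2 := hy.le2; have g3 := hz.le2
  have v00 : Vd m (0, 0) := by unfold Vd; simp
  by_cases hy0 : y.1 = 0
  · have e : mulP m x y = (0, 0) := by
      apply vd_zero_iff (mul_valid hx hy) _ hm
      rw [mul_fst]; omega
    rw [e, vd_zero_iff hy hy0 hm, zero_add']
    exact mul_le_right' hx hz
  by_cases hz0 : z.1 = 0
  · rw [vd_zero_iff hz hz0 hm, add_comm' hm hy v00, zero_add',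
      add_comm' hm (mul_valid hx hy) v00, zero_add']
  rw [add_ne hy0 hz0]
  have s1 := sx_le hy
  have s2 := sx_le hz
  rw [mul_comm', nrm_mul (by omega) hx]
  by_cases hxy : x.1 + y.1 - m = 0
  · have e : mulP m x y = (0, 0) := by
      apply vd_zero_iff (mul_valid hx hy) _ hm
      rw [mul_fst]; omega
    rw [e, zero_add']
    by_cases hc : y.1 + z.1 ≤ m
    · have e1 : sx m y = 0 := by unfold sx; rw [if_neg (by omega)]
      have e2 : sx m z = 0 := by unfold sx; rw [if_neg (by omega)]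
      rw [e1, e2, max_self, mt_zero_left]
      unfold Vd at hz
      unfold code nrm
      dsimp only
      split_ifs <;> omega
    · have hm1 : min m (y.1 + z.1) = m := by omega
      rw [hm1]
      unfold Vd at hz
      have k1 : mt (max (sx m y) (sx m z)) x.2 ≤ 3 := mt_le (by omega) g1
      unfold code nrm
      dsimp only
      split_ifs <;> omega
  · rw [add_ne (by rw [mul_fst]; exact hxy) hz0]
    by_cases hc : y.1 + z.1 ≤ m
    · have e1 : sx m y = 0 := by unfold sx; rw [if_neg (by omega)]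
      have e2 : sx m z = 0 := by unfold sx; rw [if_neg (by omega)]
      rw [e1, e2, max_self, mt_zero_left]
      have e3 : min m (y.1 + z.1) + x.1 - m = min m ((mulP m x y).1 + z.1) := by
        rw [mul_fst]; omega
      rw [e3]
      exact nrm_zero_min
    · have k1 : mt (max (sx m y) (sx m z)) x.2 ≤ 3 := mt_le (by omega) g1
      have k2 := sx_le (mul_valid hx hy)
      apply nrm_mono k1 (by omega) (by omega)
      rw [mul_fst]
      by_cases hxm : x.1 = m
      · right
        refine ⟨by omega, ?_⟩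
        have k3 : sx m (mulP m x y) = mt (sx m y) x.2 := by
          unfold sx
          rw [mul_fst, mul_snd]
          by_cases hym : y.1 = m
          · rw [if_pos (by omega), if_neg (by omega), if_neg (by omega), if_pos hym, mt_comm]
          · rw [if_neg (by omega), if_neg hym, mt_zero_left]
        rw [k3]
        rcases le_total (sx m y) (sx m z) with h | h
        · rw [max_eq_right h]
          have := mt_le_self (t := sx m z) g1
          rw [mt_comm]; omega
        · rw [max_eq_left h]; omega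
      · left; omega

universe u

/-- The chain with `m = k + 2`. -/
structure Ch (k : ℕ) : Type u where
  p : ℕ × ℕ
  vd : Vd (k + 2) p

namespace Ch

variable {k : ℕ}

theorem ext' {x y : Ch.{u} k} (h : x.p = y.p) : x = y := by
  cases x; cases y; cases h; rfl

theorem cinj : Function.Injective (fun x : Ch.{u} k => code x.p) :=
  fun x y h => ext' (code_inj x.vd y.vd h)

instance : LinearOrder (Ch.{u} k) := LinearOrder.lift' (fun x : Ch.{u} k => code x.p) cinj

theorem le_iff {x y : Ch.{u} k} : x ≤ y ↔ code x.p ≤ code y.p := Iff.rfl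

instance : CommMonoid (Ch.{u} k) where
  mul x y := ⟨mulP (k + 2) x.p y.p, mul_valid x.vd y.vd⟩
  one := ⟨(k + 2, 3), by unfold Vd; simp⟩
  mul_assoc x y z := ext' (mul_assoc' x.vd y.vd z.vd)
  mul_comm x y := ext' mul_comm'
  one_mul x := ext' (one_mul' (by omega) x.vd)
  mul_one x := ext' (by
    change mulP (k + 2) x.p (k + 2, 3) = x.p
    rw [mul_comm', one_mul' (by omega) x.vd])

instance : Zero (Ch.{u} k) := ⟨⟨(0, 0), by unfold Vd; simp⟩⟩

instance : Add (Ch.{u} k) := ⟨fun x y => ⟨addP (k + 2) x.p y.p, add_valid x.vd y.vd⟩⟩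

instance : AddCommMonoid (Ch.{u} k) where
  add_assoc x y z := ext' (add_assoc' (by omega) x.vd y.vd z.vd)
  add_comm x y := ext' (add_comm' (by omega) x.vd y.vd)
  zero_add x := ext' (zero_add' (m := k + 2) x.p)
  add_zero x := ext' (by
    change addP (k + 2) x.p (0, 0) = x.p
    rw [add_comm' (by omega) x.vd (by unfold Vd; simp), zero_add'])
  nsmul := nsmulRec

theorem mul_p (x y : Ch.{u} k) : (x * y).p = mulP (k + 2) x.p y.p := rfl
theorem add_p (x y : Ch.{u} k) : (x + y).p = addP (k + 2) x.p y.p := rfl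
theorem one_p : (1 : Ch.{u} k).p = (k + 2, 3) := rfl
theorem zero_p : (0 : Ch.{u} k).p = (0, 0) := rfl

theorem mul_mono {x y z : Ch.{u} k} (h : y ≤ z) : x * y ≤ x * z :=
  mul_mono' x.vd y.vd z.vd h

theorem add_mono {x y z : Ch.{u} k} (h : y ≤ z) : x + y ≤ x + z :=
  add_mono' (by omega) x.vd y.vd z.vd h

instance : Bim (Ch.{u} k) where
  mul_sup' x y z := by
    rcases le_total y z with h | h
    · rw [sup_eq_right.2 h, sup_eq_right.2 (mul_mono h)]
    · rw [sup_eq_left.2 h, sup_eq_left.2 (mul_mono h)]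
  add_inf' x y z := by
    rcases le_total y z with h | h
    · rw [inf_eq_left.2 h, inf_eq_left.2 (add_mono h)]
    · rw [inf_eq_right.2 h, inf_eq_right.2 (add_mono h)]
  hemi x y z := hemi' (by omega) x.vd y.vd z.vd

end Ch

end Pool.Agent.H.MP_2e5387_al.Chain
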