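import Pool.Agent.H.MP_2e5387_al.ChainA

/-!
# The chains satisfy the combinatorial condition
-/

namespace Pool.Agent.H.MP_2e5387_al

universe u

section General

variable {A : Type u} [Bim A]

theorem prod1_le_pow (s : Multiset (Pw A)) (v : A) (h : ∀ w ∈ s, w.1 ≤ v) :
    s.prod.1 ≤ v ^ s.card := by
  induction s using Multiset.induction with
  | empty => simp
  | cons a s ih =>
    rw [Multiset.prod_cons, Multiset.card_cons, pow_succ']
    calc a.1 * s.prod.1 ≤ a.1 * v ^ s.card :=
          bmul_le (ih (fun w hw => h w (Multiset.mem_cons_of_mem hw)))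
      _ ≤ v * v ^ s.card := bmul_le' (h a (Multiset.mem_cons_self a s))

theorem mul_mem_Zle (w : Pw A) (c d : A) :
    w * mkw c d ∈ Zle A ↔ w.1 * c ≤ Multiplicative.toAdd w.2 + d := Iff.rfl

/-- The premise for a power of a single pair. -/
theorem rep_premise {n : ℕ} {s : Multiset (Pw A)} {c d : A}
    (h : ∀ t : Multiset (Pw A), t.card = n → (∀ w ∈ t, w ∈ s) → t.prod * mkw c d ∈ Zle A)
    {w : Pw A} (hw : w ∈ s) : w.1 ^ n * c ≤ n • Multiplicative.toAdd w.2 + d := by
  have := h (Multiset.replicate n w) (Multiset.card_replicate n w)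
    (fun v hv => by rw [Multiset.eq_of_mem_replicate hv]; exact hw)
  rw [Multiset.prod_replicate, mul_mem_Zle] at this
  exact this

end General

theorem exists_max {α : Type*} [LinearOrder α] {β : Type*} (s : Multiset β) (f : β → α)
    (hs : s ≠ 0) : ∃ w ∈ s, ∀ v ∈ s, f v ≤ f w := by
  induction s using Multiset.induction with
  | empty => exact absurd rfl hs
  | cons a s ih =>
    by_cases h : s = 0
    · subst h
      exact ⟨a, Multiset.mem_cons_self a 0, fun v hv => by
        rcases Multiset.mem_cons.1 hv with rfl | hv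
        · exact le_rfl
        · exact absurd hv (Multiset.notMem_zero v)⟩
    · obtain ⟨w, hw, hmax⟩ := ih h
      rcases le_total (f a) (f w) with h1 | h1
      · refine ⟨w, Multiset.mem_cons_of_mem hw, fun v hv => ?_⟩
        rcases Multiset.mem_cons.1 hv with rfl | hv
        · exact h1
        · exact hmax v hv
      · refine ⟨a, Multiset.mem_cons_self a s, fun v hv => ?_⟩
        rcases Multiset.mem_cons.1 hv with rfl | hv
        · exact le_rfl
        · exact le_trans (hmax v hv) h1

namespace Chain

namespace Ch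

variable {k : ℕ}

/-- The level. -/
def lv (x : Ch.{u} k) : ℕ := x.p.1

theorem lv_le (x : Ch.{u} k) : lv x ≤ k + 2 := x.vd.le1

theorem lv_mul (x y : Ch.{u} k) : lv (x * y) = lv x + lv y - (k + 2) := rfl

theorem lv_add (x y : Ch.{u} k) : lv (x + y) = min (k + 2) (lv x + lv y) :=
  add_fst (by omega) x.vd y.vd

theorem lv_one : lv (1 : Ch.{u} k) = k + 2 := rfl

theorem lv_zero : lv (0 : Ch.{u} k) = 0 := rfl

theorem eq_zero {x : Ch.{u} k} (h : lv x = 0) : x = 0 :=
  ext' (vd_zero_iff x.vd h (by omega))

theorem le_of_lv {x y : Ch.{u} k} (h : lv x < lv y) : x ≤ y := by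
  rw [le_iff]
  have := x.vd.le2
  unfold lv at h
  unfold code
  omega

theorem lv_mono {x y : Ch.{u} k} (h : x ≤ y) : lv x ≤ lv y := by
  rcases code_le x.vd y.vd h with h | h
  · exact h.le
  · exact h.1.le

theorem lv_pow {x : Ch.{u} k} (h : lv x = k + 2) (n : ℕ) : lv (x ^ n) = k + 2 := by
  induction n with
  | zero => rw [pow_zero, lv_one]
  | succ n ih => rw [pow_succ, lv_mul, ih, h]; omega

/-- Powers of elements of the top level. -/
theorem pow_top {x : Ch.{u} k} (h : lv x = k + 2) : x ^ (k + 2) = x ^ (k + 3) := by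
  have key : x * x = x * x * x := by
    obtain ⟨⟨a, b⟩, hv⟩ := x
    have hb : b ≤ 3 := hv.le2
    have ha : a = k + 2 := h
    subst ha
    apply ext'
    rw [mul_p, mul_p, mul_p]
    unfold mulP nrm
    dsimp only
    rw [Prod.mk.injEq]
    have e1 : k + 2 + (k + 2) - (k + 2) = k + 2 := by omega
    rw [e1, e1]
    refine ⟨rfl, ?_⟩
    rw [if_neg (by omega), if_neg (by omega), if_neg (by omega), if_neg (by omega)]
    interval_cases b <;> rfl
  calc x ^ (k + 2) = x ^ k * (x * x) := by rw [pow_add, pow_two]
    _ = x ^ k * (x * x * x) := by rw [← key]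
    _ = x ^ (k + 3) := by rw [pow_add]; congr 1; rw [pow_succ, pow_two]

/-- The index at the top level. -/
def sxx (x : Ch.{u} k) : ℕ := sx (k + 2) x.p

theorem sxx_add (x y : Ch.{u} k) : sxx (x + y) = max (sxx x) (sxx y) :=
  sx_add (by omega) x.vd y.vd

theorem sxx_nsmul (x : Ch.{u} k) (n : ℕ) : sxx (n • x) ≤ sxx x := by
  induction n with
  | zero =>
    rw [zero_smul]
    have : sxx (0 : Ch.{u} k) = 0 := by
      unfold sxx sx; rw [zero_p]; split_ifs <;> rfl
    rw [this]; exact Nat.zero_le _
  | succ n ih =>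
    rw [succ_nsmul, sxx_add]
    exact max_le ih le_rfl

theorem le_of_sxx {x y : Ch.{u} k} (hy : lv y = k + 2) (h : sxx x ≤ sxx y) : x ≤ y := by
  rw [le_iff]
  have h1 := x.vd.le1
  have h2 := x.vd.le2
  unfold lv at hy
  unfold sxx sx at h
  unfold code
  rw [if_pos hy] at h
  split_ifs at h with h3
  · omega
  · omega

variable (k) in
/-- Total deficit of the first coordinates. -/
def dA (s : Multiset (Pw (Ch.{u} k))) : ℕ := (s.map (fun w => (k + 2) - lv w.1)).sum

variable (k) in
/-- Total level of the second coordinates. -/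
def dB (s : Multiset (Pw (Ch.{u} k))) : ℕ :=
  (s.map (fun w => lv (Multiplicative.toAdd w.2))).sum

theorem lv_prod1 (s : Multiset (Pw (Ch.{u} k))) : lv s.prod.1 = (k + 2) - dA k s := by
  induction s using Multiset.induction with
  | empty => rfl
  | cons a s ih =>
    have h1 : (a ::ₘ s).prod.1 = a.1 * s.prod.1 := by rw [Multiset.prod_cons]; rfl
    have h2 : dA k (a ::ₘ s) = (k + 2 - lv a.1) + dA k s := by
      unfold dA; rw [Multiset.map_cons, Multiset.sum_cons]
    rw [h1, lv_mul, ih, h2]
    have := lv_le a.1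
    omega

theorem lv_prod2 (s : Multiset (Pw (Ch.{u} k))) :
    lv (Multiplicative.toAdd s.prod.2) = min (k + 2) (dB k s) := by
  induction s using Multiset.induction with
  | empty => rfl
  | cons a s ih =>
    have h1 : Multiplicative.toAdd (a ::ₘ s).prod.2 =
        Multiplicative.toAdd a.2 + Multiplicative.toAdd s.prod.2 := by
      rw [Multiset.prod_cons]; rfl
    have h2 : dB k (a ::ₘ s) = lv (Multiplicative.toAdd a.2) + dB k s := by
      unfold dB; rw [Multiset.map_cons, Multiset.sum_cons]
    rw [h1, lv_add, ih, h2]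
    omega

theorem card_le (s : Multiset (Pw (Ch.{u} k)))
    (h : ∀ w ∈ s, 1 ≤ (k + 2 - lv w.1) + lv (Multiplicative.toAdd w.2)) :
    s.card ≤ dA k s + dB k s := by
  induction s using Multiset.induction with
  | empty => simp
  | cons a s ih =>
    have h2 : dA k (a ::ₘ s) = (k + 2 - lv a.1) + dA k s := by
      unfold dA; rw [Multiset.map_cons, Multiset.sum_cons]
    have h3 : dB k (a ::ₘ s) = lv (Multiplicative.toAdd a.2) + dB k s := by
      unfold dB; rw [Multiset.map_cons, Multiset.sum_cons]
    rw [Multiset.card_cons, h2, h3]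
    have h4 := ih (fun w hw => h w (Multiset.mem_cons_of_mem hw))
    have h5 := h a (Multiset.mem_cons_self a s)
    omega

theorem mem_dA {s : Multiset (Pw (Ch.{u} k))} {w : Pw (Ch.{u} k)} (hw : w ∈ s) :
    (k + 2) - lv w.1 ≤ dA k s :=
  Multiset.single_le_sum (fun _ _ => Nat.zero_le _) _ (Multiset.mem_map_of_mem _ hw)

theorem mem_dB {s : Multiset (Pw (Ch.{u} k))} {w : Pw (Ch.{u} k)} (hw : w ∈ s) :
    lv (Multiplicative.toAdd w.2) ≤ dB k s :=
  Multiset.single_le_sum (fun _ _ => Nat.zero_le _) _
    (Multiset.mem_map_of_mem (fun w : Pw (Ch.{u} k) => lv (Multiplicative.toAdd w.2)) hw)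

/-- A product with a factor of index zero at the top level is minimal in its level. -/
theorem sigma_mul {x y z : Ch.{u} k} (hx2 : x.p.2 = 0)
    (h : lv (x * y) = lv z) : x * y ≤ z := by
  rw [le_iff, mul_p]
  rw [lv_mul] at h
  unfold lv at h
  have hz := z.vd
  unfold Vd at hz
  unfold mulP nrm code
  rw [hx2, mt_zero_left]
  dsimp only
  split_ifs <;> omega

theorem idx_pos_mul {x y : Ch.{u} k} (hx : lv x = k + 2) (hy : lv y = k + 2)
    (h1 : 1 ≤ x.p.2) (h2 : 1 ≤ y.p.2) : 1 ≤ (x * y).p.2 := by
  rw [mul_p, mul_snd]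
  unfold lv at hx hy
  rw [if_neg (by omega), if_neg (by omega)]
  unfold mt
  rw [if_neg (by omega)]
  omega

theorem idx_pos_pow {x : Ch.{u} k} (hx : lv x = k + 2) (h1 : 1 ≤ x.p.2) (n : ℕ) :
    1 ≤ (x ^ n).p.2 := by
  induction n with
  | zero => rw [pow_zero, one_p]; norm_num
  | succ n ih => rw [pow_succ]; exact idx_pos_mul (lv_pow hx n) hx ih h1

theorem lv_nsmul (x : Ch.{u} k) (n : ℕ) : lv (n • x) = min (k + 2) (n * lv x) := by
  induction n with
  | zero => rw [zero_smul, lv_zero]; omega
  | succ n ih =>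
    rw [succ_nsmul, lv_add, ih, Nat.succ_mul]
    omega

/-- The chains satisfy the condition. -/
theorem cc : CC (k + 2) (k + 3) (Zle (Ch.{u} k)) := by
  intro s hs z h
  by_contra hcon
  obtain ⟨c, d, rfl⟩ := exists_mkw z
  have hlt : Multiplicative.toAdd s.prod.2 + d < s.prod.1 * c := not_le.1 hcon
  have hs0 : s ≠ 0 := by
    rintro rfl
    simp at hs
  have hrep : ∀ w ∈ s, w.1 ^ (k + 3) * c ≤ (k + 3) • Multiplicative.toAdd w.2 + d :=
    fun w hw => rep_premise h hw
  obtain ⟨w, hws, hmax⟩ := exists_max s (fun w : Pw (Ch.{u} k) => w.1) hs0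
  have hprod : s.prod.1 ≤ w.1 ^ (k + 2) := by
    rw [← hs]; exact prod1_le_pow s w.1 hmax
  have hL := lv_mono hlt.le
  have hLl := lv_mul s.prod.1 c
  have hRl := lv_add (Multiplicative.toAdd s.prod.2) d
  have hA := lv_prod1 s
  have hB := lv_prod2 s
  have hc := lv_le c
  have hd := lv_le d
  have hwA := mem_dA hws
  have hwB := mem_dB hws
  have hwl := lv_le w.1
  by_cases h1 : lv (Multiplicative.toAdd s.prod.2 + d) = k + 2
  · -- everything on the left is at the top level
    have htop : lv w.1 = k + 2 := by omega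
    have h2 : s.prod.1 * c ≤ (k + 3) • Multiplicative.toAdd w.2 + d := by
      calc s.prod.1 * c ≤ w.1 ^ (k + 2) * c := bmul_le' hprod
        _ = w.1 ^ (k + 3) * c := by rw [pow_top htop]
        _ ≤ _ := hrep w hws
    have h3 : (k + 3) • Multiplicative.toAdd w.2 + d ≤ Multiplicative.toAdd s.prod.2 + d := by
      apply le_of_sxx h1
      rw [sxx_add, sxx_add]
      apply max_le_max _ le_rfl
      refine le_trans (sxx_nsmul _ _) ?_
      obtain ⟨s', rfl⟩ := Multiset.exists_cons_of_mem hws
      have e : Multiplicative.toAdd (w ::ₘ s').prod.2 =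
        Multiplicative.toAdd w.2 + Multiplicative.toAdd s'.prod.2 := by
        rw [Multiset.prod_cons]; rfl
      rw [e, sxx_add]
      exact le_max_left _ _
    exact absurd (le_trans h2 h3) (not_le.2 hlt)
  · have hpos : 1 ≤ lv (s.prod.1 * c) := by
      by_contra h0
      have h0' : s.prod.1 * c = 0 := eq_zero (by omega)
      rw [h0'] at hlt
      have : (0 : Ch.{u} k) ≤ Multiplicative.toAdd s.prod.2 + d := by
        rw [le_iff, zero_p]; exact Nat.zero_le _
      exact absurd this (not_le.2 hlt)
    by_cases h2 : ∃ v ∈ s, lv v.1 = k + 2 ∧ lv (Multiplicative.toAdd v.2) = 0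
    · obtain ⟨v, hvs, hv1, hv2⟩ := h2
      have h3 := hrep v hvs
      rw [eq_zero hv2, smul_zero, zero_add] at h3
      have h4 := lv_mono h3
      rw [lv_mul, lv_pow hv1] at h4
      have htop : lv w.1 = k + 2 := by omega
      have hw2 : lv (Multiplicative.toAdd w.2) = 0 := by omega
      have h5 := hrep w hws
      rw [eq_zero hw2, smul_zero, zero_add, ← pow_top htop] at h5
      have h6 : Multiplicative.toAdd s.prod.2 = 0 := eq_zero (by omega)
      rw [h6, zero_add] at hlt
      exact absurd (le_trans (bmul_le' hprod) h5) (not_le.2 hlt)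
    · have hk : ∀ v ∈ s, 1 ≤ (k + 2 - lv v.1) + lv (Multiplicative.toAdd v.2) := by
        intro v hv
        by_contra h3
        have := lv_le v.1
        exact h2 ⟨v, hv, by omega, by omega⟩
      have h3 := card_le s hk
      rw [hs] at h3
      -- there is a pair with positive level in the second coordinate
      have h4 : 1 ≤ dB k s := by omega
      obtain ⟨v, hvs, hv⟩ : ∃ v ∈ s, 1 ≤ lv (Multiplicative.toAdd v.2) := by
        by_contra hno
        have hno' : ∀ v ∈ s, lv (Multiplicative.toAdd v.2) = 0 := by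
          intro v hv
          by_contra h5
          exact hno ⟨v, hv, by omega⟩
        have : dB k s = 0 := by
          unfold dB
          apply Multiset.sum_eq_zero
          intro x hx
          obtain ⟨v, hv, rfl⟩ := Multiset.mem_map.1 hx
          exact hno' v hv
        omega
      obtain ⟨s', rfl⟩ := Multiset.exists_cons_of_mem hvs
      have h5 := card_le s' (fun w hw => hk w (Multiset.mem_cons_of_mem hw))
      rw [Multiset.card_cons] at hs
      have e2 : dA k (v ::ₘ s') = (k + 2 - lv v.1) + dA k s' := by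
        unfold dA; rw [Multiset.map_cons, Multiset.sum_cons]
      have e3 : dB k (v ::ₘ s') = lv (Multiplicative.toAdd v.2) + dB k s' := by
        unfold dB; rw [Multiset.map_cons, Multiset.sum_cons]
      have hvl := lv_le v.1
      have hv1 : lv v.1 = k + 2 := by omega
      have hv2 : lv (Multiplicative.toAdd v.2) = 1 := by omega
      have hd0 : lv d = 0 := by omega
      have hc0 : lv c = k + 2 := by omega
      have h6 := hrep v hvs
      rw [eq_zero hd0, add_zero] at h6
      have h7 : lv ((k + 3) • Multiplicative.toAdd v.2) = k + 2 := by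
        rw [lv_nsmul, hv2]; omega
      have h8 : sxx (Multiplicative.toAdd v.2) = 0 := by
        unfold sxx sx
        rw [if_neg]
        unfold lv at hv2
        omega
      have h9 : ((k + 3) • Multiplicative.toAdd v.2).p.2 = 0 := by
        have h10 := sxx_nsmul (Multiplicative.toAdd v.2) (k + 3)
        unfold sxx sx at h10 h8
        unfold lv at h7
        rw [if_pos h7, h8] at h10
        omega
      have h11 : v.1.p.2 = 0 ∨ c.p.2 = 0 := by
        by_contra h12
        have h13 := idx_pos_mul (lv_pow hv1 (k + 3)) hc0 (idx_pos_pow hv1 (by omega) (k + 3))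
          (by omega : 1 ≤ c.p.2)
        have h14 : lv (v.1 ^ (k + 3) * c) = k + 2 := by
          rw [lv_mul, lv_pow hv1, hc0]; omega
        rw [le_iff] at h6
        unfold code at h6
        unfold lv at h7 h14
        omega
      have e4 : (v ::ₘ s').prod.1 = v.1 * s'.prod.1 := by rw [Multiset.prod_cons]; rfl
      have hLR : lv ((v ::ₘ s').prod.1 * c) =
          lv (Multiplicative.toAdd (v ::ₘ s').prod.2 + d) := by omega
      apply absurd _ (not_le.2 hlt)
      rcases h11 with h11 | h11
      · have e5 : (v ::ₘ s').prod.1 * c = v.1 * (s'.prod.1 * c) := by rw [e4, mul_assoc]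
        rw [e5]
        apply sigma_mul h11
        rw [← e5]
        exact hLR
      · rw [mul_comm]
        apply sigma_mul h11
        rw [mul_comm]
        exact hLR

end Ch

end Chain

end Pool.Agent.H.MP_2e5387_al
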