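import Pool.Agent.H.MP_2e5387_al.Embed

/-!
# Quotients by idempotent maps and the failure of closure under homomorphic images
-/

namespace Pool.Agent.H.MP_2e5387_al

universe u

section

variable {A : Type u} [Bim A]

/-- An idempotent map whose kernel is a congruence. -/
structure Retr (r : A → A) : Prop where
  idem : ∀ x, r (r x) = r x
  inf : ∀ x y, r (r x ⊓ r y) = r (x ⊓ y)
  sup : ∀ x y, r (r x ⊔ r y) = r (x ⊔ y)
  mul : ∀ x y, r (r x * r y) = r (x * y)
  add : ∀ x y, r (r x + r y) = r (x + y)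

/-- It is enough to check one argument at a time. -/
theorem Retr.mk' {r : A → A} (idem : ∀ x, r (r x) = r x)
    (inf : ∀ x y, r (r x ⊓ y) = r (x ⊓ y)) (sup : ∀ x y, r (r x ⊔ y) = r (x ⊔ y))
    (mul : ∀ x y, r (r x * y) = r (x * y)) (add : ∀ x y, r (r x + y) = r (x + y)) : Retr r where
  idem := idem
  inf x y := by rw [inf, inf_comm, inf, inf_comm]
  sup x y := by rw [sup, sup_comm, sup, sup_comm]
  mul x y := by rw [mul, mul_comm, mul, mul_comm]
  add x y := by rw [add, add_comm, add, add_comm]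

/-- The quotient algebra. -/
def qAlg {r : A → A} (hr : Retr r) : LBAlg {x : A // r x = x} where
  inf x y := ⟨r (x.1 ⊓ y.1), hr.idem _⟩
  sup x y := ⟨r (x.1 ⊔ y.1), hr.idem _⟩
  mul x y := ⟨r (x.1 * y.1), hr.idem _⟩
  add x y := ⟨r (x.1 + y.1), hr.idem _⟩
  one := ⟨r 1, hr.idem _⟩
  zero := ⟨r 0, hr.idem _⟩

/-- The quotient map. -/
def qMap {r : A → A} (hr : Retr r) (x : A) : {x : A // r x = x} := ⟨r x, hr.idem x⟩

theorem qMap_surj {r : A → A} (hr : Retr r) : Function.Surjective (qMap hr) := by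
  rintro ⟨x, hx⟩; exact ⟨x, Subtype.ext hx⟩

theorem qMap_hom {r : A → A} (hr : Retr r) : IsHom (toAlg A) (qAlg hr) (qMap hr) where
  map_inf x y := Subtype.ext (hr.inf x y).symm
  map_sup x y := Subtype.ext (hr.sup x y).symm
  map_mul x y := Subtype.ext (hr.mul x y).symm
  map_add x y := Subtype.ext (hr.add x y).symm
  map_one := rfl
  map_zero := rfl

theorem aLe_qMap {r : A → A} (hr : Retr r) (x y : A) :
    aLe (qAlg hr) (qMap hr x) (qMap hr y) ↔ r (x ⊓ y) = r x := by
  constructor
  · intro h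
    have := congrArg Subtype.val h
    change r (r x ⊓ r y) = r x at this
    rwa [hr.inf] at this
  · intro h
    apply Subtype.ext
    change r (r x ⊓ r y) = r x
    rwa [hr.inf]

/-- The class of subreducts is not closed under homomorphic images. -/
def HFails (m n : ℕ) : Prop :=
  ∃ (A B : Type u) (a : LBAlg A) (b : LBAlg B) (f : A → B),
    IsSubreduct m n a ∧ Function.Surjective f ∧ IsHom a b f ∧ ¬ IsSubreduct m n b

/-- Criterion for the failure of closure under homomorphic images. -/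
theorem hFails_of {m n : ℕ} (hm : 1 ≤ m) (hA : IsSubreduct m n (toAlg A)) {r : A → A}
    (hr : Retr r) (s : Multiset (Pw A)) (hs : s.card = m) (c d : A)
    (h : ∀ t : Multiset (Pw A), t.card = n → (∀ w ∈ t, w ∈ s) →
      r (t.prod.1 * c ⊓ (Multiplicative.toAdd t.prod.2 + d)) = r (t.prod.1 * c))
    (hc : r (s.prod.1 * c ⊓ (Multiplicative.toAdd s.prod.2 + d)) ≠ r (s.prod.1 * c)) :
    HFails.{u} m n := by
  refine ⟨A, _, toAlg A, qAlg hr, qMap hr, hA, qMap_surj hr, qMap_hom hr, ?_⟩
  intro hB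
  have := cc_of_image (qMap_hom hr) hm hB s hs c d
    (fun t ht hts => (aLe_qMap hr _ _).2 (h t ht hts))
  exact hc ((aLe_qMap hr _ _).1 this)

/-- Multisets with two possible values. -/
theorem prod_two {t : Multiset (Pw A)} {X Y : Pw A} (h : ∀ w ∈ t, w = X ∨ w = Y) :
    ∃ i j, i + j = t.card ∧ t.prod = X ^ i * Y ^ j := by
  induction t using Multiset.induction with
  | empty => exact ⟨0, 0, rfl, by simp⟩
  | cons a t ih =>
    obtain ⟨i, j, hij, hp⟩ := ih (fun w hw => h w (Multiset.mem_cons_of_mem hw))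
    rcases h a (Multiset.mem_cons_self a t) with rfl | rfl
    · refine ⟨i + 1, j, by rw [Multiset.card_cons]; omega, ?_⟩
      rw [Multiset.prod_cons, hp, pow_succ', mul_assoc]
    · refine ⟨i, j + 1, by rw [Multiset.card_cons]; omega, ?_⟩
      rw [Multiset.prod_cons, hp, pow_succ', ← mul_assoc, mul_comm a, mul_assoc]

end

/-- Monotonicity in the exponents. -/
theorem IsSubreduct.up {m n : ℕ} {A : Type u} {a : LBAlg A} (h : IsSubreduct m (m + 1) a)
    (hmn : m ≤ n) : IsSubreduct m n a := by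
  obtain ⟨R, _, hR, f, hf, hh⟩ := h
  refine ⟨R, inferInstance, ?_, f, hf, hh⟩
  intro x
  obtain ⟨j, rfl⟩ := Nat.exists_eq_add_of_le hmn
  clear hmn
  induction j with
  | zero => exact le_rfl
  | succ j ih =>
    refine le_trans ih ?_
    have : x ^ m * x ^ j ≤ x ^ (m + 1) * x ^ j := imul_le_mul (hR x) le_rfl
    rw [← pow_add, ← pow_add] at this
    have e : m + 1 + j = m + (j + 1) := by omega
    rwa [e] at this

theorem IsSubreduct.down {m n : ℕ} {A : Type u} {a : LBAlg A} (h : IsSubreduct (n + 1) n a)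
    (hmn : n ≤ m) : IsSubreduct m n a := by
  obtain ⟨R, _, hR, f, hf, hh⟩ := h
  refine ⟨R, inferInstance, ?_, f, hf, hh⟩
  intro x
  obtain ⟨j, rfl⟩ := Nat.exists_eq_add_of_le hmn
  clear hmn
  induction j with
  | zero => exact le_rfl
  | succ j ih =>
    refine le_trans ?_ ih
    have : x ^ (n + 1) * x ^ j ≤ x ^ n * x ^ j := imul_le_mul (hR x) le_rfl
    rw [← pow_add, ← pow_add] at this
    have e : n + 1 + j = n + (j + 1) := by omega
    rwa [e] at this

end Pool.Agent.H.MP_2e5387_al
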