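import Pool.Agent.H.MP_2e5387_al.ChainB
import Pool.Agent.H.MP_2e5387_al.Quot

/-!
# The knotted varieties with `2 ≤ m < n`
-/

namespace Pool.Agent.H.MP_2e5387_al.Chain

universe u

/-- Collapse of the two lowest elements of the top level. -/
def rP (m : ℕ) (p : ℕ × ℕ) : ℕ × ℕ := if p.1 = m ∧ p.2 = 1 then (m, 0) else p

namespace Ch

variable {k : ℕ}

theorem rP_vd {p : ℕ × ℕ} (h : Vd (k + 2) p) : Vd (k + 2) (rP (k + 2) p) := by
  unfold rP; split_ifs
  · unfold Vd; simp
  · exact h

/-- The retraction. -/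
def r (x : Ch.{u} k) : Ch.{u} k := ⟨rP (k + 2) x.p, rP_vd x.vd⟩

theorem r_p (x : Ch.{u} k) : (r x).p = rP (k + 2) x.p := rfl

/-- The element with index zero at the top level. -/
def sig : Ch.{u} k := ⟨(k + 2, 0), by unfold Vd; simp⟩

/-- The element with index one at the top level. -/
def vv : Ch.{u} k := ⟨(k + 2, 1), by unfold Vd; simp⟩

theorem r_eq (x : Ch.{u} k) : r x = if x = vv then sig else x := by
  apply ext'
  rw [r_p]
  by_cases h : x = vv
  · subst h
    rw [if_pos rfl]
    unfold rP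
    exact if_pos ⟨rfl, rfl⟩
  · rw [if_neg h]
    unfold rP
    rw [if_neg]
    rintro ⟨h1, h2⟩
    exact h (ext' (Prod.ext h1 h2))

theorem r_vv : r (vv : Ch.{u} k) = sig := by rw [r_eq, if_pos rfl]

theorem r_sig : r (sig : Ch.{u} k) = sig := by
  apply ext'; rw [r_p]; unfold rP sig; exact if_neg (by simp)

theorem sig_lt_vv : (sig : Ch.{u} k) < vv := by
  rw [lt_iff_le_not_ge, le_iff, le_iff]
  change 4 * (k + 2) + 0 ≤ 4 * (k + 2) + 1 ∧ ¬ 4 * (k + 2) + 1 ≤ 4 * (k + 2) + 0
  omega

theorem le_sig_or (y : Ch.{u} k) : y ≤ sig ∨ vv ≤ y := by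
  rw [le_iff, le_iff]
  change code y.p ≤ 4 * (k + 2) + 0 ∨ 4 * (k + 2) + 1 ≤ code y.p
  omega

theorem retr : Retr (r : Ch.{u} k → Ch.{u} k) := by
  have hred : ∀ (op : Ch.{u} k → Ch.{u} k → Ch.{u} k), (∀ y, r (op sig y) = r (op vv y)) →
      ∀ x y, r (op (r x) y) = r (op x y) := by
    intro op h x y
    by_cases hx : x = vv
    · subst hx; rw [r_vv]; exact h y
    · rw [r_eq x, if_neg hx]
  apply Retr.mk'
  · intro x
    by_cases hx : x = vv
    · subst hx; rw [r_vv, r_sig]
    · have : r x = x := by rw [r_eq, if_neg hx]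
      rw [this, this]
  · apply hred
    intro y
    rcases le_sig_or y with h | h
    · rw [inf_eq_right.2 h, inf_eq_right.2 (le_trans h sig_lt_vv.le)]
    · rw [inf_eq_left.2 h, inf_eq_left.2 (le_trans sig_lt_vv.le h), r_vv, r_sig]
  · apply hred
    intro y
    rcases le_sig_or y with h | h
    · rw [sup_eq_left.2 h, sup_eq_left.2 (le_trans h sig_lt_vv.le), r_vv, r_sig]
    · rw [sup_eq_right.2 h, sup_eq_right.2 (le_trans sig_lt_vv.le h)]
  · apply hred
    intro y
    apply ext'
    rw [r_p, r_p, mul_p, mul_p]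
    have h1 := y.vd.le1
    have h2 := y.vd.le2
    unfold sig vv mulP nrm mt rP
    dsimp only
    have e : k + 2 + y.p.1 - (k + 2) = y.p.1 := by omega
    rw [e]
    by_cases h3 : y.p.1 = k + 2
    · rw [h3]
      interval_cases h4 : y.p.2 <;> simp
    · have h5 : y.p.1 < k + 2 := by omega
      interval_cases h4 : y.p.2 <;> simp [h3, h5]
  · apply hred
    intro y
    apply ext'
    rw [r_p, r_p, add_p, add_p]
    have h1 := y.vd.le1
    have h2 := y.vd.le2
    by_cases h0 : y.p.1 = 0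
    · have : y.p = (0, 0) := vd_zero_iff y.vd h0 (by omega)
      rw [this]
      unfold addP sig vv rP
      simp
    · rw [add_ne (by unfold sig; simp) h0, add_ne (by unfold vv; simp) h0]
      have e1 : (sig : Ch.{u} k).p = (k + 2, 0) := rfl
      have e2 : (vv : Ch.{u} k).p = (k + 2, 1) := rfl
      rw [e1, e2]
      have e3 : min (k + 2) ((k + 2, 0).1 + y.p.1) = k + 2 := by dsimp only; omega
      rw [e3]
      have e5 : sx (k + 2) (k + 2, 0) = 0 := by unfold sx; simp
      have e6 : sx (k + 2) (k + 2, 1) = 1 := by unfold sx; simp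
      rw [e5, e6]
      have h5 := sx_le y.vd
      generalize sx (k + 2) y.p = q at *
      have h6 : ∀ t, nrm (k + 2) (k + 2) t = (k + 2, t) := by
        intro t
        unfold nrm
        rw [if_neg (by omega), if_neg (by omega)]
      rw [h6, h6]
      unfold rP
      interval_cases q <;> simp

/-- The element of level `m - 1`. -/
def xx : Ch.{u} k := ⟨(k + 1, 3), by unfold Vd; simp⟩

/-- The element `u` at the top level. -/
def uu : Ch.{u} k := ⟨(k + 2, 2), by unfold Vd; simp⟩

/-- The element of level one. -/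
def bb : Ch.{u} k := ⟨(1, 1), by unfold Vd; simp⟩

theorem lv_xx : lv (xx : Ch.{u} k) = k + 1 := rfl
theorem lv_uu : lv (uu : Ch.{u} k) = k + 2 := rfl
theorem lv_bb : lv (bb : Ch.{u} k) = 1 := rfl

theorem xpow (j : ℕ) (hj : j ≤ k + 1) : ((xx : Ch.{u} k) ^ j).p = (k + 2 - j, 3) := by
  induction j with
  | zero => rw [pow_zero]; rfl
  | succ j ih =>
    rw [pow_succ, mul_p, ih (by omega)]
    unfold xx mulP nrm
    dsimp only
    rw [Prod.mk.injEq]
    refine ⟨by omega, ?_⟩
    rw [if_neg (by omega), if_pos (by omega)]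
    rfl

theorem lv_xpow (i : ℕ) : lv ((xx : Ch.{u} k) ^ i) = k + 2 - i := by
  induction i with
  | zero => rw [pow_zero, lv_one]; rfl
  | succ i ih => rw [pow_succ, lv_mul, ih, lv_xx]; omega

theorem upow (j : ℕ) : (uu : Ch.{u} k) ^ (j + 2) = vv := by
  induction j with
  | zero =>
    rw [zero_add, pow_two]
    apply ext'
    rw [mul_p]
    unfold uu vv mulP nrm
    dsimp only
    rw [Prod.mk.injEq]
    refine ⟨by omega, ?_⟩
    rw [if_neg (by omega), if_neg (by omega)]
    rfl
  | succ j ih =>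
    have e : j + 1 + 2 = (j + 2) + 1 := by omega
    rw [e, pow_succ, ih]
    apply ext'
    rw [mul_p]
    unfold uu vv mulP nrm
    dsimp only
    rw [Prod.mk.injEq]
    refine ⟨by omega, ?_⟩
    rw [if_neg (by omega), if_neg (by omega)]
    rfl

theorem nb (n : ℕ) (hn : k + 2 ≤ n) : n • (bb : Ch.{u} k) = sig := by
  have h1 : lv (n • (bb : Ch.{u} k)) = k + 2 := by
    rw [lv_nsmul, lv_bb]; omega
  have h2 := sxx_nsmul (bb : Ch.{u} k) n
  have h3 : sxx (bb : Ch.{u} k) = 0 := by
    unfold sxx sx bb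
    rw [if_neg]
    dsimp only
    omega
  rw [h3] at h2
  unfold sxx sx at h2
  unfold lv at h1
  rw [if_pos h1] at h2
  apply ext'
  exact Prod.ext h1 (by change _ = 0; omega)

/-- The varieties with `2 ≤ m < n`. -/
theorem hFails (k n : ℕ) (hn : k + 2 < n) :
    HFails.{u} (k + 2) n := by
  have hA : IsSubreduct (k + 2) n (toAlg (Ch.{u} k)) :=
    (isSubreduct_of_CC (Ch.{u} k) cc).up (by omega)
  let X : Pw (Ch.{u} k) := mkw xx 0
  let Y : Pw (Ch.{u} k) := mkw uu bb
  have hXp : ∀ i, X ^ i = mkw (xx ^ i) 0 := by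
    intro i
    induction i with
    | zero => rfl
    | succ i ih => rw [pow_succ, ih, mkw_mul, add_zero, pow_succ]
  have hYp : ∀ i, Y ^ i = mkw (uu ^ i) (i • bb) := by
    intro i
    induction i with
    | zero => rw [pow_zero, pow_zero, zero_smul]; rfl
    | succ i ih => rw [pow_succ, ih, mkw_mul, pow_succ, succ_nsmul]
  apply hFails_of (by omega) hA retr (Y ::ₘ Multiset.replicate (k + 1) X) (by simp) 1 0
  · intro t ht hts
    obtain ⟨i, j, hij, hp⟩ := prod_two (t := t) (X := X) (Y := Y) (by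
      intro w hw
      rcases Multiset.mem_cons.1 (hts w hw) with h | h
      · exact Or.inr h
      · exact Or.inl (Multiset.eq_of_mem_replicate h))
    rw [hp, hXp, hYp, mkw_mul, zero_add]
    change r (xx ^ i * uu ^ j * 1 ⊓ (j • bb + 0)) = r (xx ^ i * uu ^ j * 1)
    rw [mul_one, add_zero]
    by_cases hi : i = 0
    · subst hi
      have hj : j = (j - 2) + 2 := by omega
      rw [pow_zero, one_mul, nb j (by omega), hj, upow, inf_eq_right.2 sig_lt_vv.le, r_vv, r_sig]
    · congr 1
      apply inf_eq_left.2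
      have e1 : lv (xx ^ i * uu ^ j : Ch.{u} k) = k + 2 - i := by
        rw [lv_mul, lv_xpow, lv_pow lv_uu]; omega
      by_cases h3 : k + 2 ≤ i
      · rw [eq_zero (x := xx ^ i * uu ^ j) (by omega), le_iff, zero_p]
        exact Nat.zero_le _
      · apply le_of_lv
        rw [e1, lv_nsmul, lv_bb]
        omega
  · rw [Multiset.prod_cons, Multiset.prod_replicate, hXp]
    have hY : Y * mkw (xx ^ (k + 1)) 0 = mkw (uu * xx ^ (k + 1)) bb := by
      change mkw uu bb * mkw (xx ^ (k + 1)) 0 = _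
      rw [mkw_mul, add_zero]
    rw [hY]
    have h0 : (mkw (uu * xx ^ (k + 1)) bb : Pw (Ch.{u} k)).1 = uu * xx ^ (k + 1) := rfl
    have h0' : Multiplicative.toAdd (mkw (uu * xx ^ (k + 1)) bb : Pw (Ch.{u} k)).2 = bb := rfl
    rw [h0, h0', mul_one, add_zero]
    have e : (uu * xx ^ (k + 1) : Ch.{u} k).p = (1, 2) := by
      rw [mul_p, xpow (k + 1) (by omega)]
      unfold uu mulP nrm
      dsimp only
      rw [Prod.mk.injEq]
      refine ⟨by omega, ?_⟩
      rw [if_neg (by omega), if_pos (by omega)]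
      rfl
    have h1 : (bb : Ch.{u} k) ≤ uu * xx ^ (k + 1) := by
      rw [le_iff, e]
      change 4 * 1 + 1 ≤ 4 * 1 + 2
      omega
    rw [inf_eq_right.2 h1]
    intro h
    have h2 := congrArg Ch.p h
    rw [r_p, r_p, e] at h2
    unfold rP bb at h2
    dsimp only at h2
    rw [if_neg (by omega), if_neg (by omega)] at h2
    simp at h2

end Ch

end Pool.Agent.H.MP_2e5387_al.Chain
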