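import Mathlib

/-!
# Knotted varieties of involutive commutative residuated lattices

Definitions for the question which knotted varieties of involutive commutative residuated
lattices have a variety of bimonoidal subreducts.
-/

namespace Pool.Agent.H.MP_2e5387_al

universe u v

/-- Algebras in the signature (meet, join, product, sum, unit of the product, unit of the sum). -/
structure LBAlg (A : Type u) where
  inf : A → A → A
  sup : A → A → A
  mul : A → A → A
  add : A → A → A
  one : A
  zero : A

/-- Homomorphisms of algebras in this signature. -/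
structure IsHom {A : Type u} {B : Type v} (a : LBAlg A) (b : LBAlg B) (f : A → B) : Prop where
  map_inf : ∀ x y, f (a.inf x y) = b.inf (f x) (f y)
  map_sup : ∀ x y, f (a.sup x y) = b.sup (f x) (f y)
  map_mul : ∀ x y, f (a.mul x y) = b.mul (f x) (f y)
  map_add : ∀ x y, f (a.add x y) = b.add (f x) (f y)
  map_one : f a.one = b.one
  map_zero : f a.zero = b.zero

/-- Direct product of algebras. -/
def LBAlg.pi {ι : Type v} {A : ι → Type u} (a : ∀ i, LBAlg (A i)) : LBAlg (∀ i, A i) where
  inf x y i := (a i).inf (x i) (y i)
  sup x y i := (a i).sup (x i) (y i)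
  mul x y i := (a i).mul (x i) (y i)
  add x y i := (a i).add (x i) (y i)
  one i := (a i).one
  zero i := (a i).zero

/-- Involutive commutative residuated lattices: a lattice and a commutative monoid with a
residual `imp` and a constant `fls` such that `imp (imp x fls) fls = x`. -/
class InCRL (R : Type u) extends Lattice R, CommMonoid R where
  imp : R → R → R
  fls : R
  mul_le_iff : ∀ x y z : R, x * y ≤ z ↔ y ≤ imp x z
  dneg : ∀ x : R, imp (imp x fls) fls = x

/-- Negation. -/
def neg {R : Type u} [InCRL R] (x : R) : R := InCRL.imp x InCRL.fls

/-- The sum dual to the product. -/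
def plus {R : Type u} [InCRL R] (x y : R) : R := neg (neg x * neg y)

/-- The bimonoidal reduct of an involutive commutative residuated lattice. -/
def reduct (R : Type u) [InCRL R] : LBAlg R where
  inf x y := x ⊓ y
  sup x y := x ⊔ y
  mul x y := x * y
  add x y := plus x y
  one := 1
  zero := InCRL.fls

/-- The class of bimonoidal subreducts of the knotted variety given by `x ^ m ≤ x ^ n`. -/
def IsSubreduct (m n : ℕ) {A : Type u} (a : LBAlg A) : Prop :=
  ∃ (R : Type u) (_ : InCRL R), (∀ x : R, x ^ m ≤ x ^ n) ∧
    ∃ f : A → R, Function.Injective f ∧ IsHom a (reduct R) f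

/-- A class of algebras of this signature (closed under isomorphism) forms a variety: it is closed
under homomorphic images, subalgebras and direct products. -/
def FormsVariety (K : ∀ {A : Type u}, LBAlg A → Prop) : Prop :=
  (∀ (A B : Type u) (a : LBAlg A) (b : LBAlg B) (f : A → B),
    K a → Function.Surjective f → IsHom a b f → K b) ∧
  (∀ (A B : Type u) (a : LBAlg A) (b : LBAlg B) (f : A → B),
    K b → Function.Injective f → IsHom a b f → K a) ∧
  (∀ (ι : Type u) (A : ι → Type u) (a : ∀ i, LBAlg (A i)), (∀ i, K (a i)) → K (LBAlg.pi a))

end Pool.Agent.H.MP_2e5387_al
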