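import Pool.Agent.H.MP_2e5387_al.Base

/-!
# The case `n < m`
-/

namespace Pool.Agent.H.MP_2e5387_al

set_option linter.unusedVariables false

universe u

open B24

/-- The algebra with 24 elements. -/
structure Q24 : Type u where
  v : Fin 24

namespace Q24

/-- The operation of a table. -/
def op (T : ℕ) (x y : Q24.{u}) : Q24.{u} := ⟨⟨tb T x.v.1 y.v.1, tb_lt T _ _⟩⟩

theorem ext' {x y : Q24.{u}} (h : x.v.1 = y.v.1) : x = y := by
  cases x; cases y; congr 1; exact Fin.ext h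

theorem op_comm {T : ℕ} (h : chk2 (fun i j => Nat.beq (tb T i j) (tb T j i)) = true)
    (x y : Q24.{u}) : op T x y = op T y x :=
  ext' (Nat.eq_of_beq_eq_true (chk2_spec h x.v y.v))

theorem op_assoc {T : ℕ}
    (h : chk3 (fun i j k => Nat.beq (tb T (tb T i j) k) (tb T i (tb T j k))) = true)
    (x y z : Q24.{u}) : op T (op T x y) z = op T x (op T y z) :=
  ext' (Nat.eq_of_beq_eq_true (chk3_spec h x.v y.v z.v))

instance : Lattice Q24.{u} :=
  @Lattice.mk' Q24.{u} ⟨op TS⟩ ⟨op TI⟩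
    (op_comm comm_S) (op_assoc assoc_S) (op_comm comm_I) (op_assoc assoc_I)
    (fun x y => ext' (Nat.eq_of_beq_eq_true (chk2_spec abs_S x.v y.v)))
    (fun x y => ext' (Nat.eq_of_beq_eq_true (chk2_spec abs_I x.v y.v)))

theorem sup_def (x y : Q24.{u}) : x ⊔ y = op TS x y := rfl
theorem inf_def (x y : Q24.{u}) : x ⊓ y = op TI x y := rfl

theorem le_iff (x y : Q24.{u}) : x ≤ y ↔ tb TS x.v.1 y.v.1 = y.v.1 := by
  rw [← sup_eq_right, sup_def]
  constructor
  · intro h
    have := congrArg (fun z : Q24.{u} => z.v.1) h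
    exact this
  · intro h
    exact ext' h

theorem one_op (x : Q24.{u}) : op TM ⟨20⟩ x = x :=
  ext' (Nat.eq_of_beq_eq_true (chk2_spec unit_M x.v 0))

theorem zero_op (x : Q24.{u}) : op TA ⟨3⟩ x = x :=
  ext' (Nat.eq_of_beq_eq_true (chk2_spec unit_A x.v 0))

instance : CommMonoid Q24.{u} where
  mul := op TM
  one := ⟨20⟩
  mul_assoc := op_assoc assoc_M
  one_mul := one_op
  mul_one x := (op_comm comm_M x _).trans (one_op x)
  mul_comm := op_comm comm_M

instance : AddCommMonoid Q24.{u} where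
  add := op TA
  zero := ⟨3⟩
  add_assoc := op_assoc assoc_A
  zero_add := zero_op
  add_zero x := (op_comm comm_A x _).trans (zero_op x)
  add_comm := op_comm comm_A
  nsmul := @nsmulRec _ ⟨⟨3⟩⟩ ⟨op TA⟩

instance : BBim Q24.{u} where
  mul_sup' x y z := ext' (Nat.eq_of_beq_eq_true (chk3_spec dist_M x.v y.v z.v))
  add_inf' x y z := ext' (Nat.eq_of_beq_eq_true (chk3_spec dist_A x.v y.v z.v))
  hemi x y z := (le_iff _ _).2 (Nat.eq_of_beq_eq_true (chk3_spec hemi_T x.v y.v z.v))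
  bot := ⟨0⟩
  top := ⟨23⟩
  bot_le x := (le_iff _ _).2 (Nat.eq_of_beq_eq_true (chk2_spec bot_S x.v 0))
  le_top x := (le_iff _ _).2 (Nat.eq_of_beq_eq_true (chk2_spec top_S x.v 0))
  bot_mul' x := ext' (Nat.eq_of_beq_eq_true (chk2_spec bot_M x.v 0))
  top_add' x := ext' (Nat.eq_of_beq_eq_true (chk2_spec top_A x.v 0))

/-- The retraction. -/
def r (x : Q24.{u}) : Q24.{u} := ⟨⟨rt x.v.1, tb_lt _ _ _⟩⟩

theorem retr : Retr r.{u} := by
  apply Retr.mk'
  · intro x; exact ext' (Nat.eq_of_beq_eq_true (chk2_spec r_idem x.v 0))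
  · intro x y; exact ext' (Nat.eq_of_beq_eq_true (chk2_spec r_I x.v y.v))
  · intro x y; exact ext' (Nat.eq_of_beq_eq_true (chk2_spec r_S x.v y.v))
  · intro x y; exact ext' (Nat.eq_of_beq_eq_true (chk2_spec r_M x.v y.v))
  · intro x y; exact ext' (Nat.eq_of_beq_eq_true (chk2_spec r_A x.v y.v))

theorem min_spec {x d b : Q24.{u}} (h : x ≤ b + d) : op TB x d ≤ b := by
  have h1 := chk3_spec min_B x.v d.v b.v
  rw [le_iff] at h
  change tb TS x.v.1 (tb TA b.v.1 d.v.1) = tb TA b.v.1 d.v.1 at h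
  rw [le_iff]
  change tb TS (tb TB x.v.1 d.v.1) b.v.1 = b.v.1
  apply Nat.eq_of_beq_eq_true
  have h2 : Nat.beq (tb TS x.v.1 (tb TA b.v.1 d.v.1)) (tb TA b.v.1 d.v.1) = true := by
    rw [h]; exact Nat.beq_refl _
  rw [h2] at h1
  exact h1

theorem cc : CC 2 1 (Zle Q24.{u}) := by
  intro s hs z h
  obtain ⟨w1, w2, rfl⟩ := Multiset.card_eq_two.1 hs
  have h1 := h {w1} (by simp) (by simp)
  have h2 := h {w2} (by simp) (by simp)
  rw [Multiset.prod_singleton] at h1 h2
  have e : (({w1, w2} : Multiset (Pw Q24.{u})).prod) = w1 * w2 := Multiset.prod_pair _ _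
  rw [e]
  obtain ⟨a1, b1, rfl⟩ := exists_mkw w1
  obtain ⟨a2, b2, rfl⟩ := exists_mkw w2
  obtain ⟨c, d, rfl⟩ := exists_mkw z
  rw [mkw_mul, mkw_mem] at h1 h2
  rw [mkw_mul, mkw_mul, mkw_mem]
  have k1 := min_spec h1
  have k2 := min_spec h2
  have k3 : a1 * (a2 * c) ≤ op TB (a1 * c) d + (op TB (a2 * c) d + d) := by
    rw [le_iff]
    exact Nat.eq_of_beq_eq_true
      (allB_spec (allB_spec (allB_spec (allB_spec cc_T a1.v.1 a1.v.2) a2.v.1 a2.v.2)
        c.v.1 c.v.2) d.v.1 d.v.2)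
  rw [mul_assoc, add_assoc]
  exact le_trans k3 (le_trans (badd_le' k1) (badd_le (badd_le' k2)))

/-- Named elements. -/
def ea : Q24.{u} := ⟨19⟩
def eb : Q24.{u} := ⟨2⟩
def ee : Q24.{u} := ⟨21⟩
def ec : Q24.{u} := ⟨8⟩
def ed : Q24.{u} := ⟨14⟩

theorem viol1 : r.{u} (ea * ec ⊓ (eb + ed)) = r (ea * ec) :=
  ext' (Nat.eq_of_beq_eq_true (by decide +kernel :
    Nat.beq (rt (tb TI (tb TM 19 8) (tb TA 2 14))) (rt (tb TM 19 8)) = true))

theorem viol2 : r.{u} (ee * ec ⊓ ed) = r (ee * ec) :=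
  ext' (Nat.eq_of_beq_eq_true (by decide +kernel :
    Nat.beq (rt (tb TI (tb TM 21 8) 14)) (rt (tb TM 21 8)) = true))

theorem ee_ee : (ee * ee : Q24.{u}) = ee :=
  ext' (Nat.eq_of_beq_eq_true (by decide +kernel : Nat.beq (tb TM 21 21) 21 = true))

theorem ee_pow (k : ℕ) : (ee ^ (k + 1) : Q24.{u}) = ee := by
  induction k with
  | zero => rw [zero_add, pow_one]
  | succ k ih => rw [pow_succ, ih, ee_ee]

theorem viol3 : r.{u} (ea * ee * ec ⊓ (eb + ed)) ≠ r (ea * ee * ec) := by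
  intro h
  have h1 := congrArg (fun z : Q24.{u} => z.v.1) h
  have h2 : rt (tb TI (tb TM (tb TM 19 21) 8) (tb TA 2 14)) = rt (tb TM (tb TM 19 21) 8) := h1
  have h3 : Nat.beq (rt (tb TI (tb TM (tb TM 19 21) 8) (tb TA 2 14)))
      (rt (tb TM (tb TM 19 21) 8)) = true := by rw [h2]; exact Nat.beq_refl _
  exact absurd h3 (by decide +kernel)

end Q24

open PN Q24

/-- Multisets with three possible values. -/
theorem prod_three {A : Type u} [Bim A] {t : Multiset (Pw A)} {X Y V : Pw A}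
    (h : ∀ w ∈ t, w = X ∨ w = Y ∨ w = V) :
    ∃ i j l, i + j + l = t.card ∧ t.prod = X ^ i * Y ^ j * V ^ l := by
  induction t using Multiset.induction with
  | empty => exact ⟨0, 0, 0, rfl, by simp⟩
  | cons a t ih =>
    obtain ⟨i, j, l, hij, hp⟩ := ih (fun w hw => h w (Multiset.mem_cons_of_mem hw))
    rcases h a (Multiset.mem_cons_self a t) with rfl | rfl | rfl
    · refine ⟨i + 1, j, l, by rw [Multiset.card_cons]; omega, ?_⟩
      rw [Multiset.prod_cons, hp, pow_succ', mul_assoc, mul_assoc, mul_assoc]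
    · refine ⟨i, j + 1, l, by rw [Multiset.card_cons]; omega, ?_⟩
      rw [Multiset.prod_cons, hp, pow_succ', ← mul_assoc, ← mul_assoc, mul_comm a, mul_assoc (X ^ i)]
    · refine ⟨i, j, l + 1, by rw [Multiset.card_cons]; omega, ?_⟩
      rw [Multiset.prod_cons, hp, pow_succ, mul_comm a, ← mul_assoc]

section

variable {N : ℕ}

/-- monomial pairs -/
def mp (N k : ℕ) (a b : Q24.{u}) : Pw (PN N Q24.{u}) := mkw (mono N k a) (dcon N b)

theorem mp_mul (k l : ℕ) (a b a' b' : Q24.{u}) :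
    mp N k a b * mp N l a' b' = mp N (k + l) (a * a') (b + b') := by
  unfold mp
  rw [mkw_mul, mono_mul, dcon_add]

theorem mp_one : (1 : Pw (PN N Q24.{u})) = mp N 0 1 0 := rfl

theorem mp_pow (k : ℕ) (a b : Q24.{u}) (j : ℕ) :
    mp N k a b ^ j = mp N (k * j) (a ^ j) (j • b) := by
  induction j with
  | zero => rw [pow_zero, mp_one, mul_zero, pow_zero, zero_nsmul]
  | succ j ih => rw [pow_succ, ih, mp_mul, pow_succ, Nat.mul_succ, succ_nsmul]

theorem hFails_down_aux (N k : ℕ) :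
    HFails.{u} (N + 2 + k) (N + 1) := by
  have hA : IsSubreduct (N + 2 + k) (N + 1) (toAlg (PN N Q24.{u})) :=
    IsSubreduct.down (isSubreduct_of_CC _ (CC_lift Q24.cc)) (by omega)
  have hprod : (mp.{u} N 0 ea eb ::ₘ (Multiset.replicate (k + 1) (mp N 0 ee 0) +
      Multiset.replicate N (mp N 1 1 0))).prod = mp N N (ea * ee) eb := by
    rw [Multiset.prod_cons, Multiset.prod_add, Multiset.prod_replicate, Multiset.prod_replicate,
      mp_pow, mp_pow, mp_mul, mp_mul, ee_pow, one_pow, nsmul_zero, nsmul_zero, add_zero, add_zero,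
      mul_one]
    congr 1
    omega
  refine hFails_of (by omega) hA (retr_lift Q24.retr)
    (mp N 0 ea eb ::ₘ (Multiset.replicate (k + 1) (mp N 0 ee 0) +
      Multiset.replicate N (mp N 1 1 0)))
    (by rw [Multiset.card_cons, Multiset.card_add, Multiset.card_replicate,
      Multiset.card_replicate]; omega) (mono N 0 ec) (dcon N ed) ?_ ?_
  · intro t ht hts
    obtain ⟨i, j, l, hij, hp⟩ := prod_three (t := t) (X := mp N 0 ea eb) (Y := mp N 0 ee 0)
      (V := mp N 1 1 0) (by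
        intro w hw
        rcases Multiset.mem_cons.1 (hts w hw) with h | h
        · exact Or.inl h
        · rcases Multiset.mem_add.1 h with h | h
          · exact Or.inr (Or.inl (Multiset.eq_of_mem_replicate h))
          · exact Or.inr (Or.inr (Multiset.eq_of_mem_replicate h)))
    rw [hp, mp_pow, mp_pow, mp_pow, mp_mul, mp_mul]
    have e0 : 0 * i + 0 * j + 1 * l = l := by omega
    have e1 : i • eb + j • (0 : Q24.{u}) + l • 0 = i • eb := by
      rw [nsmul_zero, nsmul_zero, add_zero, add_zero]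
    rw [e0, e1, one_pow, mul_one]
    change rmap N r (mono N l (ea ^ i * ee ^ j) * mono N 0 ec ⊓ (dcon N (i • eb) + dcon N ed)) =
      rmap N r (mono N l (ea ^ i * ee ^ j) * mono N 0 ec)
    rw [mono_mul, dcon_add, add_zero]
    funext q
    change r (mono N l (ea ^ i * ee ^ j * ec) q ⊓ dcon N (i • eb + ed) q) =
      r (mono N l (ea ^ i * ee ^ j * ec) q)
    unfold mono dcon
    by_cases hq : q.1 = l
    · rw [if_pos hq]
      by_cases hN : q.1 = N
      · rw [if_pos hN]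
        rw [ht] at hij
        have hc : (i = 1 ∧ j = 0) ∨ (i = 0 ∧ j = 1) := by omega
        rcases hc with ⟨rfl, rfl⟩ | ⟨rfl, rfl⟩
        · rw [pow_one, pow_zero, mul_one, one_nsmul]
          exact viol1
        · rw [pow_zero, pow_one, one_mul, zero_nsmul, zero_add]
          exact viol2
      · rw [if_neg hN, inf_top_eq]
    · rw [if_neg hq, bot_inf_eq]
  · rw [hprod]
    intro h
    have h' : rmap N r (mono N N (ea * ee) * mono N 0 ec ⊓ (dcon N eb + dcon N ed)) =
      rmap N r (mono N N (ea * ee) * mono N 0 ec) := h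
    rw [mono_mul, dcon_add, add_zero] at h'
    have h2 := congrFun h' ⟨N, by omega⟩
    change r (mono N N (ea * ee * ec) ⟨N, by omega⟩ ⊓ dcon N (eb + ed) ⟨N, by omega⟩) =
      r (mono N N (ea * ee * ec) ⟨N, by omega⟩) at h2
    unfold mono dcon at h2
    rw [if_pos rfl, if_pos rfl] at h2
    exact viol3 h2

end

theorem hFails_down {m n : ℕ} (hn : 1 ≤ n) (h : n < m) :
    HFails.{u} m n := by
  obtain ⟨N, rfl⟩ := Nat.exists_eq_add_of_le' hn
  obtain ⟨k, rfl⟩ := Nat.exists_eq_add_of_lt h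
  have := hFails_down_aux.{u} N k
  have e : N + 1 + k + 1 = N + 2 + k := by omega
  rw [e]
  exact this

end Pool.Agent.H.MP_2e5387_al
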