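import Pool.Agent.H.MP_2e5387_al.Phase

/-!
# Embedding of bimonoids

A commutative bimonoid whose phase space of pairs satisfies the combinatorial condition `CC m n`
is a subreduct of the knotted variety; conversely every homomorphic image of such an algebra in
the class satisfies the quasi-identities relative to the homomorphism.
-/

namespace Pool.Agent.H.MP_2e5387_al

universe u v

/-- Commutative lattice-ordered bimonoids. -/
class Bim (A : Type u) extends Lattice A, CommMonoid A, AddCommMonoid A where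
  mul_sup' : ∀ x y z : A, x * (y ⊔ z) = x * y ⊔ x * z
  add_inf' : ∀ x y z : A, x + (y ⊓ z) = (x + y) ⊓ (x + z)
  hemi : ∀ x y z : A, x * (y + z) ≤ x * y + z

/-- The algebra of a bimonoid. -/
def toAlg (A : Type u) [Bim A] : LBAlg A where
  inf x y := x ⊓ y
  sup x y := x ⊔ y
  mul x y := x * y
  add x y := x + y
  one := 1
  zero := 0

section

variable {A : Type u} [Bim A]

theorem bmul_le {x y z : A} (h : y ≤ z) : x * y ≤ x * z := by
  have := Bim.mul_sup' x y z
  rw [sup_eq_right.2 h] at this
  rw [this]; exact le_sup_left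

theorem bmul_le' {x y z : A} (h : y ≤ z) : y * x ≤ z * x := by
  rw [mul_comm y, mul_comm z]; exact bmul_le h

theorem badd_le {x y z : A} (h : y ≤ z) : x + y ≤ x + z := by
  have := Bim.add_inf' x y z
  rw [inf_eq_left.2 h] at this
  rw [this]; exact inf_le_right

theorem badd_le' {x y z : A} (h : y ≤ z) : y + x ≤ z + x := by
  rw [add_comm y, add_comm z]; exact badd_le h

/-- The phase monoid of pairs. -/
abbrev Pw (A : Type u) := A × Multiplicative A

variable (A) in
/-- The pairs `(a, b)` with `a ≤ b`. -/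
def Zle : Set (Pw A) := {w | w.1 ≤ Multiplicative.toAdd w.2}

theorem mem_Zle {w : Pw A} : w ∈ Zle A ↔ w.1 ≤ Multiplicative.toAdd w.2 := Iff.rfl

/-- The pair `(a, b)`. -/
def mkw (a b : A) : Pw A := (a, Multiplicative.ofAdd b)

theorem mkw_mul (a b a' b' : A) : mkw a b * mkw a' b' = mkw (a * a') (b + b') := rfl

theorem mkw_mem (a b : A) : mkw a b ∈ Zle A ↔ a ≤ b := Iff.rfl

theorem exists_mkw (w : Pw A) : ∃ a b, w = mkw a b := ⟨w.1, Multiplicative.toAdd w.2, rfl⟩

/-- The closed set of an element. -/
def phi (x : A) : Cl (Zle A) := Cl.ort {mkw 1 x}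

theorem mem_phi {x a b : A} : mkw a b ∈ (phi x).1 ↔ a ≤ b + x := by
  constructor
  · intro h
    have := h (mkw 1 x) rfl
    rw [mkw_mul, mkw_mem, one_mul, add_comm] at this
    exact this
  · intro h w hw
    rw [Set.mem_singleton_iff] at hw
    subst hw
    rw [mkw_mul, mkw_mem, one_mul, add_comm]
    exact h

theorem phi_eq (x : A) : (phi x).1 = orth (Zle A) (orth (Zle A) {mkw x 0}) := by
  apply Set.Subset.antisymm
  · intro w hw z hz
    obtain ⟨a, b, rfl⟩ := exists_mkw w
    obtain ⟨c, d, rfl⟩ := exists_mkw z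
    rw [mem_phi] at hw
    have h1 := hz (mkw x 0) rfl
    rw [mkw_mul, mkw_mem, zero_add] at h1
    rw [mkw_mul, mkw_mem]
    calc c * a ≤ c * (x + b) := bmul_le (by rw [add_comm]; exact hw)
      _ ≤ c * x + b := Bim.hemi c x b
      _ ≤ d + b := badd_le' (by rw [mul_comm]; exact h1)
  · rw [← (phi x).2]
    apply oo_mono
    intro w hw
    rw [Set.mem_singleton_iff] at hw
    subst hw
    rw [mem_phi, zero_add]

theorem phi_eq_gen (x : A) : phi x = Cl.gen {mkw x 0} := Subtype.ext (phi_eq x)

theorem orth_phi (x : A) : orth (Zle A) (phi x).1 = orth (Zle A) {mkw x 0} := by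
  rw [phi_eq, orth_oo]

theorem mem_orth_phi {x c d : A} : mkw c d ∈ orth (Zle A) (phi x).1 ↔ x * c ≤ d := by
  rw [orth_phi]
  constructor
  · intro h
    have := h (mkw x 0) rfl
    rw [mkw_mul, mkw_mem, zero_add] at this
    exact this
  · intro h w hw
    rw [Set.mem_singleton_iff] at hw
    subst hw
    rw [mkw_mul, mkw_mem, zero_add]
    exact h

theorem phi_inf (x y : A) : phi (x ⊓ y) = phi x ⊓ phi y := by
  apply Subtype.ext
  change (phi (x ⊓ y)).1 = (phi x).1 ∩ (phi y).1
  ext w
  obtain ⟨a, b, rfl⟩ := exists_mkw w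
  rw [Set.mem_inter_iff, mem_phi, mem_phi, mem_phi, Bim.add_inf', le_inf_iff]

theorem phi_sup (x y : A) : phi (x ⊔ y) = phi x ⊔ phi y := by
  apply Cl.ext'
  change _ = orth (Zle A) (orth (Zle A) (orth (Zle A) ((phi x).1 ∪ (phi y).1)))
  rw [orth_oo]
  ext w
  obtain ⟨c, d, rfl⟩ := exists_mkw w
  rw [mem_orth_phi, mul_comm, Bim.mul_sup', sup_le_iff, mul_comm c x, mul_comm c y,
    ← mem_orth_phi, ← mem_orth_phi]
  constructor
  · rintro ⟨h1, h2⟩ w (hw | hw)
    · exact h1 w hw
    · exact h2 w hw
  · intro h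
    exact ⟨fun w hw => h w (Or.inl hw), fun w hw => h w (Or.inr hw)⟩

theorem pr_sing (v w : Pw A) : pr {v} {w} = {v * w} := by
  ext z; constructor
  · rintro ⟨x, hx, y, hy, rfl⟩
    rw [Set.mem_singleton_iff] at hx hy
    subst hx; subst hy; rfl
  · intro h
    rw [Set.mem_singleton_iff] at h
    subst h
    exact mem_pr rfl rfl

theorem phi_mul (x y : A) : phi (x * y) = phi x * phi y := by
  apply Cl.ext'
  rw [orth_phi]
  change _ = orth (Zle A) (orth (Zle A) (orth (Zle A) (pr (phi x).1 (phi y).1)))
  rw [orth_oo, phi_eq, phi_eq, orth_pr_oo_left, orth_pr_oo_right, pr_sing, mkw_mul, add_zero]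

theorem phi_one : phi (1 : A) = 1 := by
  rw [phi_eq_gen]; rfl

theorem neg_phi (x : A) : (neg (phi x)).1 = orth (Zle A) (orth (Zle A) {mkw 1 x}) := by
  rw [Cl.neg_val]; rfl

theorem phi_add (x y : A) : phi (x + y) = plus (phi x) (phi y) := by
  apply Subtype.ext
  rw [Cl.plus_val]
  have h1 : orth (Zle A) (phi x).1 = orth (Zle A) (orth (Zle A) {mkw 1 x}) := rfl
  have h2 : orth (Zle A) (phi y).1 = orth (Zle A) (orth (Zle A) {mkw 1 y}) := rfl
  rw [h1, h2, orth_pr_oo_left, orth_pr_oo_right, pr_sing, mkw_mul, one_mul]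
  rfl

theorem phi_zero : phi (0 : A) = InCRL.fls := rfl

theorem phi_inj : Function.Injective (phi : A → Cl (Zle A)) := by
  have key : ∀ x y : A, phi x = phi y → x ≤ y := by
    intro x y h
    have h1 : mkw x 0 ∈ (phi x).1 := by rw [mem_phi, zero_add]
    rw [h, mem_phi, zero_add] at h1
    exact h1
  intro x y h
  exact le_antisymm (key x y h) (key y x h.symm)

variable (A) in
/-- A bimonoid whose pairs satisfy `CC m n` is a subreduct. -/
theorem isSubreduct_of_CC {m n : ℕ} (h : CC m n (Zle A)) : IsSubreduct m n (toAlg A) := by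
  refine ⟨Cl (Zle A), inferInstance, Cl.knotted h, phi, phi_inj, ?_⟩
  exact ⟨phi_inf, phi_sup, phi_mul, phi_add, phi_one, phi_zero⟩

end

/-! ### The quasi-identities in the class -/

section Quasi

variable {R : Type u} [InCRL R]

theorem imul_le {x y z : R} (h : y ≤ z) : x * y ≤ x * z := by
  rw [InCRL.mul_le_iff]
  exact le_trans h ((InCRL.mul_le_iff x z (x * z)).1 le_rfl)

theorem imul_le_mul {x x' y y' : R} (h : x ≤ x') (h' : y ≤ y') : x * y ≤ x' * y' := by
  calc x * y ≤ x * y' := imul_le h'
    _ = y' * x := mul_comm _ _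
    _ ≤ y' * x' := imul_le h
    _ = x' * y' := mul_comm _ _

theorem neg_neg' (x : R) : neg (neg x) = x := InCRL.dneg x

theorem le_neg_iff {x y : R} : y ≤ neg x ↔ x * y ≤ InCRL.fls := (InCRL.mul_le_iff _ _ _).symm

theorem le_iff_mul_neg {x y : R} : x ≤ y ↔ x * neg y ≤ InCRL.fls := by
  rw [mul_comm, ← le_neg_iff, neg_neg']

theorem neg_plus (x y : R) : neg (plus x y) = neg x * neg y := by
  rw [plus, neg_neg']

theorem neg_fls : neg (InCRL.fls : R) = 1 := by
  apply le_antisymm
  · rw [le_iff_mul_neg]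
    have h : neg (1 : R) = InCRL.fls := by
      apply le_antisymm
      · have := (InCRL.mul_le_iff (1 : R) (neg 1) InCRL.fls).2 le_rfl
        rwa [one_mul] at this
      · rw [le_neg_iff, one_mul]
    rw [mul_comm, h]
    exact (InCRL.mul_le_iff _ _ _).2 le_rfl
  · rw [le_neg_iff, mul_one]

/-- Joins of nonempty multisets. -/
theorem exists_join (s : Multiset R) (hs : s ≠ 0) :
    ∃ v : R, (∀ w ∈ s, w ≤ v) ∧ ∀ y, (∀ w ∈ s, w ≤ y) → v ≤ y := by
  induction s using Multiset.induction with
  | empty => exact absurd rfl hs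
  | cons a s ih =>
    by_cases h : s = 0
    · subst h
      exact ⟨a, by simp, fun y hy => hy a (by simp)⟩
    · obtain ⟨v, hv, hv'⟩ := ih h
      refine ⟨a ⊔ v, ?_, ?_⟩
      · intro w hw
        rcases Multiset.mem_cons.1 hw with rfl | hw
        · exact le_sup_left
        · exact le_trans (hv w hw) le_sup_right
      · intro y hy
        exact sup_le (hy a (Multiset.mem_cons_self a s))
          (hv' y (fun w hw => hy w (Multiset.mem_cons_of_mem hw)))

theorem prod_le_pow (s : Multiset R) (v : R) (h : ∀ w ∈ s, w ≤ v) : s.prod ≤ v ^ s.card := by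
  induction s using Multiset.induction with
  | empty => simp
  | cons a s ih =>
    rw [Multiset.prod_cons, Multiset.card_cons, pow_succ']
    exact imul_le_mul (h a (Multiset.mem_cons_self a s))
      (ih (fun w hw => h w (Multiset.mem_cons_of_mem hw)))

theorem pow_join_le (s : Multiset R) (v : R) (hv : ∀ y, (∀ w ∈ s, w ≤ y) → v ≤ y) (k : ℕ) :
    ∀ z : R, (∀ t : Multiset R, t.card = k → (∀ w ∈ t, w ∈ s) → t.prod * z ≤ InCRL.fls) →
      v ^ k * z ≤ InCRL.fls := by
  induction k with
  | zero =>
    intro z h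
    have := h 0 rfl (by simp)
    simpa using this
  | succ k ih =>
    intro z h
    have h1 : v ≤ neg (v ^ k * z) := by
      apply hv
      intro w hw
      rw [le_neg_iff]
      have := ih (w * z) (by
        intro t ht hts
        have := h (w ::ₘ t) (by simp [ht]) (by
          intro w' hw'
          rcases Multiset.mem_cons.1 hw' with rfl | hw'
          · exact hw
          · exact hts w' hw')
        rw [Multiset.prod_cons] at this
        have e : t.prod * (w * z) = w * t.prod * z := by
          rw [← mul_assoc, mul_comm t.prod w]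
        rw [e]; exact this)
      have e : v ^ k * z * w = v ^ k * (w * z) := by rw [mul_assoc, mul_comm z w]
      rw [e]; exact this
    rw [le_neg_iff] at h1
    have e : v ^ (k + 1) * z = v ^ k * z * v := by
      rw [pow_succ, mul_assoc, mul_comm v z, mul_assoc]
    rw [e]; exact h1

/-- The quasi-identities hold in the knotted variety. -/
theorem quasi {m n : ℕ} (hm : 1 ≤ m) (hR : ∀ x : R, x ^ m ≤ x ^ n) (s : Multiset R)
    (hs : s.card = m) (z : R)
    (h : ∀ t : Multiset R, t.card = n → (∀ w ∈ t, w ∈ s) → t.prod * z ≤ InCRL.fls) :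
    s.prod * z ≤ InCRL.fls := by
  have hs0 : s ≠ 0 := by
    rintro rfl
    rw [Multiset.card_zero] at hs
    omega
  obtain ⟨v, hv, hv'⟩ := exists_join s hs0
  have h1 := pow_join_le s v hv' n z h
  have h2 := prod_le_pow s v hv
  rw [hs] at h2
  exact le_trans (imul_le_mul (le_trans h2 (hR v)) le_rfl) h1

end Quasi

section Hom

variable {A : Type u} [Bim A] {B : Type v} {b : LBAlg B} {f : A → B}

/-- The order of an algebra. -/
def aLe (b : LBAlg B) (x y : B) : Prop := b.inf x y = x

/-- Necessary condition for a homomorphic image of a bimonoid to belong to the class. -/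
theorem cc_of_image (hf : IsHom (toAlg A) b f) {m n : ℕ} (hm : 1 ≤ m) (hb : IsSubreduct m n b)
    (s : Multiset (Pw A)) (hs : s.card = m) (c d : A)
    (h : ∀ t : Multiset (Pw A), t.card = n → (∀ w ∈ t, w ∈ s) →
      aLe b (f (t.prod.1 * c)) (f (Multiplicative.toAdd t.prod.2 + d))) :
    aLe b (f (s.prod.1 * c)) (f (Multiplicative.toAdd s.prod.2 + d)) := by
  obtain ⟨R, _, hR, g, hg, hgh⟩ := hb
  have key : ∀ x y : A, aLe b (f x) (f y) ↔ g (f x) ≤ g (f y) := by
    intro x y
    constructor
    · intro h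
      have := congrArg g h
      rw [hgh.map_inf] at this
      exact inf_eq_left.1 this
    · intro h
      apply hg
      rw [hgh.map_inf]
      exact inf_eq_left.2 h
  have hmul : ∀ x y : A, g (f (x * y)) = g (f x) * g (f y) := fun x y =>
    (congrArg g (hf.map_mul x y)).trans (hgh.map_mul _ _)
  have hadd : ∀ x y : A, g (f (x + y)) = plus (g (f x)) (g (f y)) := fun x y =>
    (congrArg g (hf.map_add x y)).trans (hgh.map_add _ _)
  have hone : g (f 1) = 1 := (congrArg g hf.map_one).trans hgh.map_one
  have hzero : g (f 0) = InCRL.fls := (congrArg g hf.map_zero).trans hgh.map_zero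
  -- the multiplicative map from pairs
  let F : Pw A → R := fun w => g (f w.1) * neg (g (f (Multiplicative.toAdd w.2)))
  have hF : ∀ t : Multiset (Pw A), (t.map F).prod = F t.prod := by
    intro t
    induction t using Multiset.induction with
    | empty =>
      simp only [Multiset.map_zero, Multiset.prod_zero]
      change 1 = g (f (1 : A)) * neg (g (f (0 : A)))
      rw [hone, hzero, neg_fls, one_mul]
    | cons a t ih =>
      rw [Multiset.map_cons, Multiset.prod_cons, Multiset.prod_cons, ih]
      change g (f a.1) * neg (g (f (Multiplicative.toAdd a.2))) *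
        (g (f t.prod.1) * neg (g (f (Multiplicative.toAdd t.prod.2)))) =
        g (f (a.1 * t.prod.1)) *
          neg (g (f (Multiplicative.toAdd a.2 + Multiplicative.toAdd t.prod.2)))
      rw [hmul, hadd, neg_plus]
      exact mul_mul_mul_comm _ _ _ _
  have hZ : ∀ w : Pw A, aLe b (f (w.1 * c)) (f (Multiplicative.toAdd w.2 + d)) ↔
      F w * (g (f c) * neg (g (f d))) ≤ InCRL.fls := by
    intro w
    rw [key, le_iff_mul_neg, hmul, hadd, neg_plus]
    have e : g (f w.1) * g (f c) * (neg (g (f (Multiplicative.toAdd w.2))) * neg (g (f d))) =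
        F w * (g (f c) * neg (g (f d))) := mul_mul_mul_comm _ _ _ _
    rw [e]
  rw [hZ, ← hF]
  apply quasi hm hR (s.map F) (by rw [Multiset.card_map, hs])
  intro t ht hts
  -- lift t
  obtain ⟨t', ht', htt'⟩ : ∃ t' : Multiset (Pw A), (∀ w ∈ t', w ∈ s) ∧ t'.map F = t := by
    clear ht
    induction t using Multiset.induction with
    | empty => exact ⟨0, by simp, rfl⟩
    | cons a t ih =>
      obtain ⟨t', h1, h2⟩ := ih (fun w hw => hts w (Multiset.mem_cons_of_mem hw))
      obtain ⟨a', ha', rfl⟩ := Multiset.mem_map.1 (hts a (Multiset.mem_cons_self a t))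
      refine ⟨a' ::ₘ t', ?_, by rw [Multiset.map_cons, h2]⟩
      intro w hw
      rcases Multiset.mem_cons.1 hw with rfl | hw
      · exact ha'
      · exact h1 w hw
  subst htt'
  rw [hF, ← hZ]
  exact h t' (by rw [← ht, Multiset.card_map]) ht'

end Hom

end Pool.Agent.H.MP_2e5387_al
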