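import Pool.Agent.H.MP_2e5387_al.Poly

/-!
# Lifting the knotted condition to truncated polynomials
-/

namespace Pool.Agent.H.MP_2e5387_al

set_option linter.unusedVariables false

universe u

section ZN

variable {W : Type u} [CommMonoid W]

/-- The graded phase set. -/
def ZN (N : ℕ) (Z : Set W) : Set (W × Multiplicative ℕ) :=
  {v | Multiplicative.toAdd v.2 = N → v.1 ∈ Z}

theorem exists_deg_zero (s : Multiset (W × Multiplicative ℕ))
    (h : Multiplicative.toAdd s.prod.2 < s.card) :
    ∃ a ∈ s, Multiplicative.toAdd a.2 = 0 := by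
  induction s using Multiset.induction with
  | empty => simp at h
  | cons a s ih =>
    by_cases ha : Multiplicative.toAdd a.2 = 0
    · exact ⟨a, Multiset.mem_cons_self a s, ha⟩
    · obtain ⟨b, hb, hb'⟩ := ih (by
        rw [Multiset.prod_cons, Multiset.card_cons, Prod.snd_mul, toAdd_mul] at h
        omega)
      exact ⟨b, Multiset.mem_cons_of_mem hb, hb'⟩

theorem CC.graded {Z : Set W} (h : CC 2 1 Z) (N : ℕ) : CC (N + 2) (N + 1) (ZN N Z) := by
  intro s hs z hprem hdeg
  have hd : Multiplicative.toAdd s.prod.2 + Multiplicative.toAdd z.2 = N := by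
    rw [Prod.snd_mul, toAdd_mul] at hdeg; exact hdeg
  obtain ⟨a, ha, ha0⟩ := exists_deg_zero s (by omega)
  obtain ⟨s1, rfl⟩ := Multiset.exists_cons_of_mem ha
  rw [Multiset.prod_cons, Prod.snd_mul, toAdd_mul, ha0] at hd
  rw [Multiset.card_cons] at hs
  obtain ⟨b, hb, hb0⟩ := exists_deg_zero s1 (by omega)
  obtain ⟨s2, rfl⟩ := Multiset.exists_cons_of_mem hb
  rw [Multiset.prod_cons, Prod.snd_mul, toAdd_mul, hb0] at hd
  rw [Multiset.card_cons] at hs
  have key := h {a.1, b.1} (by simp) (s2.prod * z).1 (by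
    intro t ht hts
    obtain ⟨c, rfl⟩ := Multiset.card_eq_one.1 ht
    have hc := hts c (Multiset.mem_singleton_self c)
    rw [Multiset.prod_singleton]
    have hc' : c = a.1 ∨ c = b.1 := by
      rcases Multiset.mem_cons.1 hc with h1 | h1
      · exact Or.inl h1
      · exact Or.inr (Multiset.mem_singleton.1 h1)
    rcases hc' with rfl | rfl
    · have := hprem (a ::ₘ s2) (by rw [Multiset.card_cons]; omega) (by
        intro w hw
        rcases Multiset.mem_cons.1 hw with rfl | hw
        · exact Multiset.mem_cons_self _ _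
        · exact Multiset.mem_cons_of_mem (Multiset.mem_cons_of_mem hw)) (by
        rw [Multiset.prod_cons, Prod.snd_mul, Prod.snd_mul, toAdd_mul, toAdd_mul, ha0]
        omega)
      rw [Multiset.prod_cons, mul_assoc] at this
      exact this
    · have := hprem (b ::ₘ s2) (by rw [Multiset.card_cons]; omega) (by
        intro w hw
        exact Multiset.mem_cons_of_mem hw) (by
        rw [Multiset.prod_cons, Prod.snd_mul, Prod.snd_mul, toAdd_mul, toAdd_mul, hb0]
        omega)
      rw [Multiset.prod_cons, mul_assoc] at this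
      exact this)
  have e : (({a.1, b.1} : Multiset W).prod) = a.1 * b.1 := Multiset.prod_pair _ _
  rw [e] at key
  have e2 : ((a ::ₘ b ::ₘ s2).prod * z).1 = a.1 * b.1 * (s2.prod * z).1 := by
    rw [Multiset.prod_cons, Multiset.prod_cons]
    simp only [Prod.fst_mul, mul_assoc]
  rw [e2]
  exact key

end ZN

namespace PN

variable {N : ℕ} {A : Type u} [BBim A]

/-- The monomials of a pair of polynomials. -/
def Mon (w : Pw (PN N A)) : Set (Pw A × Multiplicative ℕ) :=
  {v | ∃ p q i : Fin (N + 1), q.1 + i.1 = N ∧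
    v = (mkw (w.1 p) (Multiplicative.toAdd w.2 i), Multiplicative.ofAdd (p.1 + q.1))}

theorem mem_Zle_iff (z : Pw (PN N A)) :
    z ∈ Zle (PN N A) ↔ ∀ v ∈ Mon z, v ∈ ZN N (Zle A) := by
  constructor
  · rintro h _ ⟨p, q, i, hqi, rfl⟩ hN
    have hN' : p.1 + q.1 = N := hN
    have : i = p := Fin.ext (by omega)
    subst this
    exact h i
  · intro h k
    have hk := k.2
    exact h _ ⟨k, ⟨N - k.1, by omega⟩, k, by show N - k.1 + k.1 = N; omega, rfl⟩ (by
      show k.1 + (N - k.1) = N; omega)

theorem mon_mul (u : Pw A × Multiplicative ℕ) (w z : Pw (PN N A)) :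
    (∀ v ∈ Mon (w * z), u * v ∈ ZN N (Zle A)) ↔
      ∀ v ∈ Mon w, ∀ v' ∈ Mon z, u * (v * v') ∈ ZN N (Zle A) := by
  obtain ⟨u1, l⟩ := u
  obtain ⟨x, y, rfl⟩ := exists_mkw u1
  obtain ⟨a, b, rfl⟩ := exists_mkw w
  obtain ⟨c, d, rfl⟩ := exists_mkw z
  rw [mkw_mul]
  constructor
  · rintro h _ ⟨p1, q1, i1, h1, rfl⟩ _ ⟨p2, q2, i2, h2, rfl⟩ hN
    have hN' : Multiplicative.toAdd l + (p1.1 + q1.1 + (p2.1 + q2.1)) = N := hN
    have hp : p1.1 + p2.1 < N + 1 := by omega
    have hq : q1.1 + q2.1 < N + 1 := by omega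
    have hi : N - (q1.1 + q2.1) < N + 1 := by omega
    have := h _ ⟨⟨p1.1 + p2.1, hp⟩, ⟨q1.1 + q2.1, hq⟩, ⟨N - (q1.1 + q2.1), hi⟩, by
      show q1.1 + q2.1 + (N - (q1.1 + q2.1)) = N
      omega, rfl⟩ (by
      show Multiplicative.toAdd l + ((p1.1 + p2.1) + (q1.1 + q2.1)) = N
      omega)
    change x * cmul a c ⟨p1.1 + p2.1, hp⟩ ≤ y + cadd b d ⟨N - (q1.1 + q2.1), hi⟩ at this
    change x * (a p1 * c p2) ≤ y + (b i1 + d i2)
    calc x * (a p1 * c p2) ≤ x * cmul a c ⟨p1.1 + p2.1, hp⟩ :=
          bmul_le (le_cmul a c (k := ⟨p1.1 + p2.1, hp⟩) rfl)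
      _ ≤ y + cadd b d ⟨N - (q1.1 + q2.1), hi⟩ := this
      _ ≤ y + (b i1 + d i2) := badd_le (cadd_le b d (by
          show i1.1 + i2.1 = N + (N - (q1.1 + q2.1))
          omega))
  · rintro h _ ⟨p, q, i, hqi, rfl⟩ hN
    have hN' : Multiplicative.toAdd l + (p.1 + q.1) = N := hN
    change x * cmul a c p ≤ y + cadd b d i
    apply mul_cmul_le
    intro p1 p2 hp
    apply le_add_cadd
    intro i1 i2 hi
    have h1 := i1.2
    have h2 := i2.2
    have := h _ ⟨p1, ⟨N - i1.1, by omega⟩, i1, by show N - i1.1 + i1.1 = N; omega, rfl⟩ _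
      ⟨p2, ⟨N - i2.1, by omega⟩, i2, by show N - i2.1 + i2.1 = N; omega, rfl⟩ (by
        show Multiplicative.toAdd l + (p1.1 + (N - i1.1) + (p2.1 + (N - i2.1))) = N
        omega)
    exact this

theorem sel_iff (s : Multiset (Pw (PN N A))) : ∀ z : Pw (PN N A),
    s.prod * z ∈ Zle (PN N A) ↔ ∀ σ : Multiset (Pw A × Multiplicative ℕ),
      Multiset.Rel (fun v w => v ∈ Mon w) σ s → ∀ v ∈ Mon z, σ.prod * v ∈ ZN N (Zle A) := by
  induction s using Multiset.induction with
  | empty =>
    intro z
    rw [Multiset.prod_zero, one_mul, mem_Zle_iff]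
    constructor
    · intro h σ hσ v hv
      rw [Multiset.rel_zero_right] at hσ
      subst hσ
      rw [Multiset.prod_zero, one_mul]
      exact h v hv
    · intro h v hv
      have := h 0 Multiset.Rel.zero v hv
      rwa [Multiset.prod_zero, one_mul] at this
  | cons w s ih =>
    intro z
    rw [Multiset.prod_cons, mul_comm w, mul_assoc, ih (w * z)]
    constructor
    · intro h σ hσ v hv
      rw [Multiset.rel_cons_right] at hσ
      obtain ⟨a, σ', ha, hσ', rfl⟩ := hσ
      rw [Multiset.prod_cons, mul_comm a, mul_assoc]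
      exact (mon_mul σ'.prod w z).1 (h σ' hσ') a ha v hv
    · intro h σ hσ
      rw [mon_mul]
      intro v hv v' hv'
      have := h (v ::ₘ σ) (Multiset.Rel.cons hv hσ) v' hv'
      rwa [Multiset.prod_cons, mul_comm v, mul_assoc] at this

theorem exists_rel {α β : Type*} {R : α → β → Prop} {σ : Multiset α} {s : Multiset β}
    (h : Multiset.Rel R σ s) : ∀ a ∈ σ, ∃ b ∈ s, R a b := by
  intro a ha
  obtain ⟨σ', rfl⟩ := Multiset.exists_cons_of_mem ha
  rw [Multiset.rel_cons_left] at h
  obtain ⟨b, s', hb, _, rfl⟩ := h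
  exact ⟨b, Multiset.mem_cons_self b s', hb⟩

theorem exists_lift {α β : Type*} {R : α → β → Prop} {s : Multiset β} (τ : Multiset α)
    (h : ∀ a ∈ τ, ∃ b ∈ s, R a b) : ∃ t : Multiset β, Multiset.Rel R τ t ∧ ∀ w ∈ t, w ∈ s := by
  induction τ using Multiset.induction with
  | empty => exact ⟨0, Multiset.Rel.zero, by simp⟩
  | cons a τ ih =>
    obtain ⟨t, h1, h2⟩ := ih (fun a ha => h a (Multiset.mem_cons_of_mem ha))
    obtain ⟨b, hb, hb'⟩ := h a (Multiset.mem_cons_self a τ)
    refine ⟨b ::ₘ t, Multiset.Rel.cons hb' h1, ?_⟩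
    intro w hw
    rcases Multiset.mem_cons.1 hw with rfl | hw
    · exact hb
    · exact h2 w hw

/-- The lifting of the knotted condition. -/
theorem CC_lift (h : CC 2 1 (Zle A)) : CC (N + 2) (N + 1) (Zle (PN N A)) := by
  intro s hs z hprem
  rw [sel_iff]
  intro σ hσ v hv
  apply CC.graded h N σ (by rw [Multiset.card_eq_card_of_rel hσ, hs])
  intro τ hτ hτσ
  obtain ⟨t, h1, h2⟩ := exists_lift τ (fun a ha => exists_rel hσ a (hτσ a ha))
  have := hprem t (by rw [← Multiset.card_eq_card_of_rel h1, hτ]) h2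
  rw [sel_iff] at this
  exact this τ h1 v hv

/-! ### Lifting retractions -/

/-- The componentwise map. -/
def rmap (N : ℕ) (r : A → A) (x : PN N A) : PN N A := fun k => r (x k)

theorem sup_congr {r : A → A} (hr : Retr r) {ι : Type} (s : Finset ι) (f g : ι → A)
    (h : ∀ i ∈ s, r (f i) = r (g i)) : r (s.sup f) = r (s.sup g) := by
  classical
  induction s using Finset.induction with
  | empty => rfl
  | insert a s _ ih =>
    rw [Finset.sup_insert, Finset.sup_insert, ← hr.sup, h a (Finset.mem_insert_self a s),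
      ih (fun i hi => h i (Finset.mem_insert_of_mem hi)), hr.sup]

theorem inf_congr {r : A → A} (hr : Retr r) {ι : Type} (s : Finset ι) (f g : ι → A)
    (h : ∀ i ∈ s, r (f i) = r (g i)) : r (s.inf f) = r (s.inf g) := by
  classical
  induction s using Finset.induction with
  | empty => rfl
  | insert a s _ ih =>
    rw [Finset.inf_insert, Finset.inf_insert, ← hr.inf, h a (Finset.mem_insert_self a s),
      ih (fun i hi => h i (Finset.mem_insert_of_mem hi)), hr.inf]

theorem retr_lift {r : A → A} (hr : Retr r) : Retr (rmap N r) where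
  idem x := funext fun k => hr.idem _
  inf x y := funext fun k => hr.inf _ _
  sup x y := funext fun k => hr.sup _ _
  mul x y := funext fun k => sup_congr hr _ _ _ (fun p _ => hr.mul _ _)
  add x y := funext fun k => inf_congr hr _ _ _ (fun p _ => hr.add _ _)

/-! ### Monomials -/

/-- A monomial. -/
def mono (N k : ℕ) (a : A) : PN N A := fun i => if i.1 = k then a else ⊥

/-- A dual constant. -/
def dcon (N : ℕ) (b : A) : PN N A := fun i => if i.1 = N then b else ⊤

theorem mono_mul (k l : ℕ) (a b : A) : mono N k a * mono N l b = mono N (k + l) (a * b) := by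
  funext i
  apply le_antisymm
  · apply cmul_le
    intro p q h
    unfold mono
    by_cases h1 : p.1 = k
    · by_cases h2 : q.1 = l
      · rw [if_pos h1, if_pos h2, if_pos (by omega)]
      · rw [if_neg h2, mul_bot'']; exact bot_le
    · rw [if_neg h1, BBim.bot_mul']; exact bot_le
  · by_cases hi : i.1 = k + l
    · have hi' := i.2
      have hk : k < N + 1 := by omega
      have hl : l < N + 1 := by omega
      have := le_cmul (mono N k a) (mono N l b) (i := ⟨k, hk⟩) (j := ⟨l, hl⟩) (k := i) hi.symm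
      unfold mono at this
      rw [if_pos rfl, if_pos rfl] at this
      unfold mono
      rw [if_pos hi]
      exact this
    · unfold mono
      rw [if_neg hi]
      exact bot_le

theorem mono_one : (1 : PN N A) = mono N 0 1 := rfl

theorem dcon_zero : (0 : PN N A) = dcon N 0 := rfl

theorem mono_pow (k : ℕ) (a : A) (j : ℕ) : mono N k a ^ j = mono N (k * j) (a ^ j) := by
  induction j with
  | zero => rw [pow_zero, mono_one, mul_zero, pow_zero]
  | succ j ih => rw [pow_succ, ih, mono_mul, pow_succ, Nat.mul_succ]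

theorem dcon_add (a b : A) : dcon N a + dcon N b = dcon N (a + b) := by
  funext i
  apply le_antisymm
  · by_cases hi : i.1 = N
    · have := cadd_le (dcon N a) (dcon N b) (i := ⟨N, by omega⟩) (j := ⟨N, by omega⟩) (k := i) (by
        show N + N = N + i.1
        omega)
      unfold dcon at this
      rw [if_pos rfl, if_pos rfl] at this
      unfold dcon
      rw [if_pos hi]
      exact this
    · unfold dcon
      rw [if_neg hi]
      exact le_top
  · apply le_cadd
    intro p q h
    unfold dcon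
    by_cases h1 : p.1 = N
    · by_cases h2 : q.1 = N
      · rw [if_pos h1, if_pos h2, if_pos (by omega)]
      · rw [if_neg h2, add_top'']; exact le_top
    · rw [if_neg h1, BBim.top_add']; exact le_top

theorem dcon_nsmul (b : A) (j : ℕ) : j • dcon N b = dcon N (j • b) := by
  induction j with
  | zero => rw [zero_nsmul, zero_nsmul, dcon_zero]
  | succ j ih => rw [succ_nsmul, ih, dcon_add, succ_nsmul]

theorem mono_zero_big (k : ℕ) (a : A) (hk : N < k) (i : Fin (N + 1)) : mono N k a i = ⊥ := by
  unfold mono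
  rw [if_neg]
  have := i.2
  omega

end PN

end Pool.Agent.H.MP_2e5387_al
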