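import Pool.Agent.H.MP_2e5387_al.Defs

/-!
# Phase spaces

For a commutative monoid `W` and a subset `Z` the closed sets form an involutive commutative
residuated lattice.
-/

namespace Pool.Agent.H.MP_2e5387_al

universe u v

section Phase

variable {W : Type u} [CommMonoid W]

/-- The orthogonal of a set. -/
def orth (Z X : Set W) : Set W := {w | ∀ x ∈ X, x * w ∈ Z}

variable {Z : Set W}

theorem mem_orth {X : Set W} {w : W} : w ∈ orth Z X ↔ ∀ x ∈ X, x * w ∈ Z := Iff.rfl

theorem orth_anti {X Y : Set W} (h : X ⊆ Y) : orth Z Y ⊆ orth Z X :=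
  fun _ hw x hx => hw x (h hx)

theorem subset_oo (X : Set W) : X ⊆ orth Z (orth Z X) := by
  intro x hx w hw
  have := hw x hx
  rwa [mul_comm]

theorem orth_oo (X : Set W) : orth Z (orth Z (orth Z X)) = orth Z X :=
  Set.Subset.antisymm (orth_anti (subset_oo X)) (subset_oo _)

theorem oo_mono {X Y : Set W} (h : X ⊆ Y) : orth Z (orth Z X) ⊆ orth Z (orth Z Y) :=
  orth_anti (orth_anti h)

theorem oo_min {X Y : Set W} (h : X ⊆ Y) (hY : orth Z (orth Z Y) = Y) :
    orth Z (orth Z X) ⊆ Y := by
  rw [← hY]; exact oo_mono h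

theorem oo_oo (X : Set W) : orth Z (orth Z (orth Z (orth Z X))) = orth Z (orth Z X) :=
  orth_oo _

/-- Product of sets. -/
def pr (X Y : Set W) : Set W := {w | ∃ x ∈ X, ∃ y ∈ Y, x * y = w}

theorem mem_pr {X Y : Set W} {x y : W} (hx : x ∈ X) (hy : y ∈ Y) : x * y ∈ pr X Y :=
  ⟨x, hx, y, hy, rfl⟩

theorem pr_comm (X Y : Set W) : pr X Y = pr Y X := by
  ext w; constructor
  · rintro ⟨x, hx, y, hy, rfl⟩; exact ⟨y, hy, x, hx, mul_comm _ _⟩
  · rintro ⟨x, hx, y, hy, rfl⟩; exact ⟨y, hy, x, hx, mul_comm _ _⟩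

theorem pr_assoc (X Y V : Set W) : pr (pr X Y) V = pr X (pr Y V) := by
  ext w; constructor
  · rintro ⟨_, ⟨x, hx, y, hy, rfl⟩, v, hv, rfl⟩
    exact ⟨x, hx, y * v, ⟨y, hy, v, hv, rfl⟩, (mul_assoc _ _ _).symm⟩
  · rintro ⟨x, hx, _, ⟨y, hy, v, hv, rfl⟩, rfl⟩
    exact ⟨x * y, ⟨x, hx, y, hy, rfl⟩, v, hv, mul_assoc _ _ _⟩

theorem pr_mono {X X' Y Y' : Set W} (h : X ⊆ X') (h' : Y ⊆ Y') : pr X Y ⊆ pr X' Y' := by
  rintro _ ⟨x, hx, y, hy, rfl⟩; exact ⟨x, h hx, y, h' hy, rfl⟩

/-- `orth (pr X Y)` only depends on the closure of `X`. -/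
theorem orth_pr_oo_left (X Y : Set W) : orth Z (pr (orth Z (orth Z X)) Y) = orth Z (pr X Y) := by
  apply Set.Subset.antisymm
  · exact orth_anti (pr_mono (subset_oo X) subset_rfl)
  · rintro w hw _ ⟨x, hx, y, hy, rfl⟩
    have h1 : y * w ∈ orth Z X := by
      intro x' hx'
      have := hw _ (mem_pr hx' hy)
      rwa [mul_assoc] at this
    have := hx _ h1
    have e : x * y * w = y * w * x := by rw [mul_assoc, mul_comm]
    rw [e]; exact this

theorem orth_pr_oo_right (X Y : Set W) : orth Z (pr X (orth Z (orth Z Y))) = orth Z (pr X Y) := by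
  rw [pr_comm, orth_pr_oo_left, pr_comm]

variable (Z) in
/-- Closed sets. -/
def Cl : Type u := {X : Set W // orth Z (orth Z X) = X}

namespace Cl

/-- The closed set generated by a set. -/
def gen (X : Set W) : Cl Z := ⟨orth Z (orth Z X), oo_oo X⟩

/-- Orthogonal sets are closed. -/
def ort (X : Set W) : Cl Z := ⟨orth Z X, orth_oo X⟩

theorem inter_closed (X Y : Cl Z) : orth Z (orth Z (X.1 ∩ Y.1)) = X.1 ∩ Y.1 := by
  apply Set.Subset.antisymm
  · exact Set.subset_inter (oo_min Set.inter_subset_left X.2) (oo_min Set.inter_subset_right Y.2)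
  · exact subset_oo _

instance : Lattice (Cl Z) where
  le X Y := X.1 ⊆ Y.1
  le_refl X := subset_rfl
  le_trans X Y V h h' := Set.Subset.trans h h'
  le_antisymm X Y h h' := Subtype.ext (Set.Subset.antisymm h h')
  sup X Y := gen (X.1 ∪ Y.1)
  inf X Y := ⟨X.1 ∩ Y.1, inter_closed X Y⟩
  le_sup_left X Y := Set.Subset.trans Set.subset_union_left (subset_oo _)
  le_sup_right X Y := Set.Subset.trans Set.subset_union_right (subset_oo _)
  sup_le X Y V h h' := oo_min (Set.union_subset h h') V.2
  inf_le_left X Y := Set.inter_subset_left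
  inf_le_right X Y := Set.inter_subset_right
  le_inf X Y V h h' := Set.subset_inter h h'

theorem le_def {X Y : Cl Z} : X ≤ Y ↔ X.1 ⊆ Y.1 := Iff.rfl

theorem ext' {X Y : Cl Z} (h : orth Z X.1 = orth Z Y.1) : X = Y := by
  apply Subtype.ext
  rw [← X.2, ← Y.2, h]

instance : CommMonoid (Cl Z) where
  mul X Y := gen (pr X.1 Y.1)
  one := gen {1}
  mul_assoc X Y V := by
    apply Subtype.ext
    change orth Z (orth Z (pr (orth Z (orth Z (pr X.1 Y.1))) V.1)) =
      orth Z (orth Z (pr X.1 (orth Z (orth Z (pr Y.1 V.1)))))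
    rw [orth_pr_oo_left, orth_pr_oo_right, pr_assoc]
  mul_comm X Y := by
    apply Subtype.ext
    change orth Z (orth Z (pr X.1 Y.1)) = orth Z (orth Z (pr Y.1 X.1))
    rw [pr_comm]
  one_mul X := by
    apply Subtype.ext
    change orth Z (orth Z (pr (orth Z (orth Z {1})) X.1)) = X.1
    rw [orth_pr_oo_left]
    have : pr {1} X.1 = X.1 := by
      ext w; constructor
      · rintro ⟨x, hx, y, hy, rfl⟩
        rw [Set.mem_singleton_iff] at hx
        subst hx; rwa [one_mul]
      · intro hw; exact ⟨1, rfl, w, hw, one_mul w⟩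
    rw [this, X.2]
  mul_one X := by
    apply Subtype.ext
    change orth Z (orth Z (pr X.1 (orth Z (orth Z {1})))) = X.1
    rw [orth_pr_oo_right]
    have : pr X.1 {1} = X.1 := by
      ext w; constructor
      · rintro ⟨x, hx, y, hy, rfl⟩
        rw [Set.mem_singleton_iff] at hy
        subst hy; rwa [mul_one]
      · intro hw; exact ⟨w, hw, 1, rfl, mul_one w⟩
    rw [this, X.2]

theorem mul_def (X Y : Cl Z) : X * Y = gen (pr X.1 Y.1) := rfl

theorem one_def : (1 : Cl Z) = gen {1} := rfl

/-- The implication. -/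
def imp (X Y : Cl Z) : Cl Z := ort (pr X.1 (orth Z Y.1))

theorem mem_imp {X Y : Cl Z} {w : W} : w ∈ (imp X Y).1 ↔ ∀ x ∈ X.1, x * w ∈ Y.1 := by
  constructor
  · intro h x hx
    rw [← Y.2]
    intro y hy
    have := h _ (mem_pr hx hy)
    have e : y * (x * w) = x * y * w := by rw [← mul_assoc, mul_comm y x]
    rw [e]; exact this
  · rintro h _ ⟨x, hx, y, hy, rfl⟩
    have h1 := h x hx
    have := hy _ h1
    have e : x * y * w = x * w * y := by rw [mul_assoc, mul_comm y w, mul_assoc]
    rw [e]; exact this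

theorem mem_unit_orth {w : W} : w ∈ orth Z ({1} : Set W) ↔ w ∈ Z := by
  constructor
  · intro h; have := h 1 rfl; rwa [one_mul] at this
  · intro h x hx
    rw [Set.mem_singleton_iff] at hx
    subst hx; rwa [one_mul]

instance : InCRL (Cl Z) where
  imp := imp
  fls := ort {1}
  mul_le_iff X Y V := by
    constructor
    · intro h y hy
      rw [mem_imp]
      intro x hx
      exact h (subset_oo _ (mem_pr hx hy))
    · intro h
      apply oo_min _ V.2
      rintro _ ⟨x, hx, y, hy, rfl⟩
      have := h hy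
      rw [mem_imp] at this
      exact this x hx
  dneg X := by
    have h : ∀ Y : Cl Z, (imp Y (ort {1})).1 = orth Z Y.1 := by
      intro Y
      ext w
      rw [mem_imp]
      constructor
      · intro h x hx; exact mem_unit_orth.1 (h x hx)
      · intro h x hx; exact mem_unit_orth.2 (h x hx)
    apply Subtype.ext
    rw [h, h, X.2]

theorem neg_val (Y : Cl Z) : (neg Y).1 = orth Z Y.1 := by
  ext w
  change w ∈ (imp Y (ort {1})).1 ↔ _
  rw [mem_imp]
  constructor
  · intro h x hx; exact mem_unit_orth.1 (h x hx)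
  · intro h x hx; exact mem_unit_orth.2 (h x hx)

theorem plus_val (X Y : Cl Z) : (plus X Y).1 = orth Z (pr (orth Z X.1) (orth Z Y.1)) := by
  rw [plus, neg_val, mul_def]
  change orth Z (orth Z (orth Z (pr (neg X).1 (neg Y).1))) = _
  rw [orth_oo, neg_val, neg_val]

/-- If `z` is orthogonal to all `k`-fold products of elements of `X` then it is orthogonal to
`X ^ k`. -/
theorem pow_orth (X : Cl Z) (k : ℕ) : ∀ z : W,
    (∀ s : Multiset W, s.card = k → (∀ w ∈ s, w ∈ X.1) → s.prod * z ∈ Z) →
    ∀ w ∈ (X ^ k).1, w * z ∈ Z := by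
  induction k with
  | zero =>
    intro z h w hw
    rw [pow_zero] at hw
    have h1 : z ∈ Z := by
      have := h 0 rfl (by simp)
      simpa using this
    have h2 := hw z (mem_unit_orth.2 h1)
    rwa [mul_comm] at h2
  | succ k ih =>
    intro z h w hw
    rw [pow_succ] at hw
    have h1 : z ∈ orth Z (pr (X ^ k).1 X.1) := by
      rintro _ ⟨u, hu, x, hx, rfl⟩
      have := ih (x * z) (by
        intro s hs hsX
        have := h (x ::ₘ s) (by simp [hs]) (by
          intro w hw
          rcases Multiset.mem_cons.1 hw with rfl | hw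
          · exact hx
          · exact hsX w hw)
        rw [Multiset.prod_cons] at this
        have e : s.prod * (x * z) = x * s.prod * z := by
          rw [← mul_assoc, mul_comm s.prod x]
        rw [e]; exact this) u hu
      rwa [mul_assoc]
    have h2 := hw z h1
    rwa [mul_comm] at h2

/-- Products of `k` elements of `X` belong to `X ^ k`. -/
theorem prod_mem_pow (X : Cl Z) (s : Multiset W) :
    (∀ w ∈ s, w ∈ X.1) → s.prod ∈ (X ^ s.card).1 := by
  induction s using Multiset.induction with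
  | empty =>
    intro _
    simp only [Multiset.prod_zero, Multiset.card_zero, pow_zero]
    exact subset_oo _ rfl
  | cons a s ih =>
    intro h
    rw [Multiset.prod_cons, Multiset.card_cons, pow_succ', mul_def]
    exact subset_oo _ (mem_pr (h a (Multiset.mem_cons_self a s))
      (ih (fun w hw => h w (Multiset.mem_cons_of_mem hw))))

end Cl

/-- The condition on a phase space which corresponds to the inequality `x ^ m ≤ x ^ n`. -/
def CC (m n : ℕ) (Z : Set W) : Prop :=
  ∀ s : Multiset W, s.card = m → ∀ z : W,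
    (∀ t : Multiset W, t.card = n → (∀ w ∈ t, w ∈ s) → t.prod * z ∈ Z) → s.prod * z ∈ Z

theorem Cl.knotted {m n : ℕ} (h : CC m n Z) (X : Cl Z) : X ^ m ≤ X ^ n := by
  intro w hw
  rw [← (X ^ n).2]
  intro z hz
  have := Cl.pow_orth X m z (by
    intro s hs hsX
    apply h s hs z
    intro t ht hts
    have h1 : t.prod ∈ (X ^ n).1 := by
      rw [← ht]; exact Cl.prod_mem_pow X t (fun w hw => hsX w (hts w hw))
    exact hz _ h1) w hw
  rwa [mul_comm]

end Phase

end Pool.Agent.H.MP_2e5387_al
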