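import Pool.Agent.H.MP_2e5387_al.Quot

/-!
# Truncated polynomials over a bounded bimonoid

The bimonoid of polynomials of degree at most `N` over a bounded bimonoid `A`.
-/

namespace Pool.Agent.H.MP_2e5387_al

universe u

/-- Bounded bimonoids in which the bounds are absorbing. -/
class BBim (A : Type u) extends Bim A, BoundedOrder A where
  bot_mul' : ∀ x : A, ⊥ * x = ⊥
  top_add' : ∀ x : A, ⊤ + x = ⊤

/-- Polynomials of degree at most `N`. -/
def PN (N : ℕ) (A : Type u) : Type u := Fin (N + 1) → A

namespace PN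

variable {N : ℕ} {A : Type u} [BBim A]

theorem mul_bot'' (x : A) : x * ⊥ = ⊥ := by rw [mul_comm, BBim.bot_mul']
theorem add_top'' (x : A) : x + ⊤ = ⊤ := by rw [add_comm, BBim.top_add']

instance : Lattice (PN N A) := inferInstanceAs (Lattice (Fin (N + 1) → A))

theorem le_iff {x y : PN N A} : x ≤ y ↔ ∀ k, x k ≤ y k := Iff.rfl
theorem sup_apply (x y : PN N A) (k) : (x ⊔ y) k = x k ⊔ y k := rfl
theorem inf_apply (x y : PN N A) (k) : (x ⊓ y) k = x k ⊓ y k := rfl

/-- The pairs of indices with a given sum. -/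
def ix (N k : ℕ) : Finset (Fin (N + 1) × Fin (N + 1)) :=
  Finset.univ.filter (fun p => p.1.1 + p.2.1 = k)

theorem mem_ix {N k : ℕ} {p : Fin (N + 1) × Fin (N + 1)} : p ∈ ix N k ↔ p.1.1 + p.2.1 = k := by
  unfold ix; rw [Finset.mem_filter]; exact ⟨fun h => h.2, fun h => ⟨Finset.mem_univ _, h⟩⟩

/-- convolution -/
def cmul (x y : PN N A) : PN N A := fun k => (ix N k.1).sup (fun p => x p.1 * y p.2)

/-- dual convolution -/
def cadd (x y : PN N A) : PN N A := fun k => (ix N (N + k.1)).inf (fun p => x p.1 + y p.2)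

/-- unit -/
def cone : PN N A := fun k => if k.1 = 0 then 1 else ⊥

/-- unit of the sum -/
def czero : PN N A := fun k => if k.1 = N then 0 else ⊤

theorem le_cmul (x y : PN N A) {i j k : Fin (N + 1)} (h : i.1 + j.1 = k.1) :
    x i * y j ≤ cmul x y k :=
  Finset.le_sup (f := fun p : Fin (N + 1) × Fin (N + 1) => x p.1 * y p.2)
    (b := (i, j)) (mem_ix.2 h)

theorem cadd_le (x y : PN N A) {i j k : Fin (N + 1)} (h : i.1 + j.1 = N + k.1) :
    cadd x y k ≤ x i + y j :=
  Finset.inf_le (f := fun p : Fin (N + 1) × Fin (N + 1) => x p.1 + y p.2)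
    (b := (i, j)) (mem_ix.2 h)

theorem sup_mul_le {ι : Type} (s : Finset ι) (f : ι → A) (v w : A)
    (h : ∀ i ∈ s, v * f i ≤ w) : v * s.sup f ≤ w := by
  classical
  induction s using Finset.induction with
  | empty => rw [Finset.sup_empty, mul_bot'']; exact bot_le
  | insert a s _ ih =>
    rw [Finset.sup_insert, Bim.mul_sup']
    exact sup_le (h a (Finset.mem_insert_self a s))
      (ih (fun i hi => h i (Finset.mem_insert_of_mem hi)))

theorem le_add_inf {ι : Type} (s : Finset ι) (f : ι → A) (v w : A)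
    (h : ∀ i ∈ s, w ≤ v + f i) : w ≤ v + s.inf f := by
  classical
  induction s using Finset.induction with
  | empty => rw [Finset.inf_empty, add_top'']; exact le_top
  | insert a s _ ih =>
    rw [Finset.inf_insert, Bim.add_inf']
    exact le_inf (h a (Finset.mem_insert_self a s))
      (ih (fun i hi => h i (Finset.mem_insert_of_mem hi)))

theorem mul_cmul_le (x y : PN N A) (k : Fin (N + 1)) (v w : A)
    (h : ∀ i j : Fin (N + 1), i.1 + j.1 = k.1 → v * (x i * y j) ≤ w) : v * cmul x y k ≤ w :=
  sup_mul_le _ _ _ _ (fun p hp => h p.1 p.2 (mem_ix.1 hp))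

theorem le_add_cadd (x y : PN N A) (k : Fin (N + 1)) (v w : A)
    (h : ∀ i j : Fin (N + 1), i.1 + j.1 = N + k.1 → w ≤ v + (x i + y j)) : w ≤ v + cadd x y k :=
  le_add_inf _ _ _ _ (fun p hp => h p.1 p.2 (mem_ix.1 hp))

theorem cmul_le (x y : PN N A) (k : Fin (N + 1)) (w : A)
    (h : ∀ i j : Fin (N + 1), i.1 + j.1 = k.1 → x i * y j ≤ w) : cmul x y k ≤ w :=
  Finset.sup_le (fun p hp => h p.1 p.2 (mem_ix.1 hp))

theorem le_cadd (x y : PN N A) (k : Fin (N + 1)) (w : A)
    (h : ∀ i j : Fin (N + 1), i.1 + j.1 = N + k.1 → w ≤ x i + y j) : w ≤ cadd x y k :=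
  Finset.le_inf (fun p hp => h p.1 p.2 (mem_ix.1 hp))

theorem cmul_comm_le (x y : PN N A) : cmul x y ≤ cmul y x := by
  intro k
  apply cmul_le
  intro i j h
  rw [mul_comm (x i) (y j)]
  exact le_cmul y x (by omega)

theorem cmul_comm (x y : PN N A) : cmul x y = cmul y x :=
  le_antisymm (cmul_comm_le x y) (cmul_comm_le y x)

theorem cadd_comm_le (x y : PN N A) : cadd x y ≤ cadd y x := by
  intro k
  apply le_cadd
  intro i j h
  rw [add_comm (y i) (x j)]
  exact cadd_le x y (by omega)

theorem cadd_comm (x y : PN N A) : cadd x y = cadd y x :=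
  le_antisymm (cadd_comm_le x y) (cadd_comm_le y x)

theorem cmul_assoc_le (x y z : PN N A) : cmul x (cmul y z) ≤ cmul (cmul x y) z := by
  intro k
  apply cmul_le
  intro i j h
  apply mul_cmul_le
  intro p q hpq
  rw [← mul_assoc]
  have hl : i.1 + p.1 < N + 1 := by have := k.2; omega
  calc x i * y p * z q ≤ cmul x y ⟨i.1 + p.1, hl⟩ * z q :=
        bmul_le' (le_cmul x y (k := ⟨i.1 + p.1, hl⟩) rfl)
    _ ≤ cmul (cmul x y) z k := le_cmul (cmul x y) z (i := ⟨i.1 + p.1, hl⟩) (by
        show i.1 + p.1 + q.1 = k.1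
        omega)

theorem cmul_assoc (x y z : PN N A) : cmul (cmul x y) z = cmul x (cmul y z) := by
  apply le_antisymm
  · calc cmul (cmul x y) z = cmul z (cmul y x) := by rw [cmul_comm, cmul_comm x y]
      _ ≤ cmul (cmul z y) x := cmul_assoc_le z y x
      _ = cmul x (cmul y z) := by rw [cmul_comm, cmul_comm z y]
  · exact cmul_assoc_le x y z

theorem cadd_assoc_le (x y z : PN N A) : cadd (cadd x y) z ≤ cadd x (cadd y z) := by
  intro k
  apply le_cadd
  intro i j h
  apply le_add_cadd
  intro p q hpq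
  rw [← add_assoc]
  have hi := i.2
  have hp := p.2
  have hq := q.2
  have hj := j.2
  obtain ⟨l, hl⟩ : ∃ l : ℕ, N + l = i.1 + p.1 := ⟨i.1 + p.1 - N, by omega⟩
  have hl' : l < N + 1 := by omega
  calc cadd (cadd x y) z k ≤ cadd x y ⟨l, hl'⟩ + z q := cadd_le (cadd x y) z (i := ⟨l, hl'⟩) (by
        show l + q.1 = N + k.1
        omega)
    _ ≤ x i + y p + z q := badd_le' (cadd_le x y (k := ⟨l, hl'⟩) (by
        show i.1 + p.1 = N + l
        omega))

theorem cadd_assoc (x y z : PN N A) : cadd (cadd x y) z = cadd x (cadd y z) := by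
  apply le_antisymm
  · exact cadd_assoc_le x y z
  · calc cadd x (cadd y z) = cadd (cadd z y) x := by rw [cadd_comm, cadd_comm y z]
      _ ≤ cadd z (cadd y x) := cadd_assoc_le z y x
      _ = cadd (cadd x y) z := by rw [cadd_comm, cadd_comm y x]

theorem cone_cmul (x : PN N A) : cmul cone x = x := by
  apply le_antisymm
  · intro k
    apply cmul_le
    intro i j h
    unfold cone
    by_cases hi : i.1 = 0
    · rw [if_pos hi, one_mul]
      have : j = k := Fin.ext (by omega)
      rw [this]
    · rw [if_neg hi, BBim.bot_mul']; exact bot_le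
  · intro k
    have := le_cmul (cone : PN N A) x (i := ⟨0, by omega⟩) (j := k) (k := k) (by simp)
    unfold cone at this
    rw [if_pos rfl, one_mul] at this
    exact this

theorem czero_cadd (x : PN N A) : cadd czero x = x := by
  apply le_antisymm
  · intro k
    have := cadd_le (czero : PN N A) x (i := ⟨N, by omega⟩) (j := k) (k := k) rfl
    unfold czero at this
    rw [if_pos rfl, zero_add] at this
    exact this
  · intro k
    apply le_cadd
    intro i j h
    unfold czero
    by_cases hi : i.1 = N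
    · rw [if_pos hi, zero_add]
      have : j = k := Fin.ext (by omega)
      rw [this]
    · rw [if_neg hi, BBim.top_add']; exact le_top

theorem cmul_sup (x y z : PN N A) : cmul x (y ⊔ z) = cmul x y ⊔ cmul x z := by
  apply le_antisymm
  · intro k
    apply cmul_le
    intro i j h
    rw [sup_apply, Bim.mul_sup']
    exact sup_le_sup (le_cmul x y h) (le_cmul x z h)
  · apply sup_le
    · intro k
      apply cmul_le
      intro i j h
      exact le_trans (bmul_le le_sup_left) (le_cmul x (y ⊔ z) h)
    · intro k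
      apply cmul_le
      intro i j h
      exact le_trans (bmul_le le_sup_right) (le_cmul x (y ⊔ z) h)

theorem cadd_inf (x y z : PN N A) : cadd x (y ⊓ z) = cadd x y ⊓ cadd x z := by
  apply le_antisymm
  · apply le_inf
    · intro k
      apply le_cadd
      intro i j h
      exact le_trans (cadd_le x (y ⊓ z) h) (badd_le inf_le_left)
    · intro k
      apply le_cadd
      intro i j h
      exact le_trans (cadd_le x (y ⊓ z) h) (badd_le inf_le_right)
  · intro k
    apply le_cadd
    intro i j h
    rw [inf_apply y z, Bim.add_inf']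
    exact inf_le_inf (cadd_le x y h) (cadd_le x z h)

theorem chemi (x y z : PN N A) : cmul x (cadd y z) ≤ cadd (cmul x y) z := by
  intro k
  apply cmul_le
  intro i j h
  apply le_cadd
  intro l q hlq
  have hq := q.2
  have hl := l.2
  have hr : l.1 - i.1 < N + 1 := by omega
  calc x i * cadd y z j ≤ x i * (y ⟨l.1 - i.1, hr⟩ + z q) := bmul_le (cadd_le y z (by
        show l.1 - i.1 + q.1 = N + j.1
        omega))
    _ ≤ x i * y ⟨l.1 - i.1, hr⟩ + z q := Bim.hemi _ _ _
    _ ≤ cmul x y l + z q := badd_le' (le_cmul x y (by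
        show i.1 + (l.1 - i.1) = l.1
        omega))

instance : CommMonoid (PN N A) where
  mul := cmul
  one := cone
  mul_assoc := cmul_assoc
  one_mul := cone_cmul
  mul_one x := (cmul_comm x cone).trans (cone_cmul x)
  mul_comm := cmul_comm

instance : AddCommMonoid (PN N A) where
  add := cadd
  zero := czero
  add_assoc := cadd_assoc
  zero_add := czero_cadd
  add_zero x := (cadd_comm x czero).trans (czero_cadd x)
  add_comm := cadd_comm
  nsmul := @nsmulRec _ ⟨czero⟩ ⟨cadd⟩

instance : Bim (PN N A) where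
  mul_sup' := cmul_sup
  add_inf' := cadd_inf
  hemi := chemi

theorem mul_def (x y : PN N A) : x * y = cmul x y := rfl
theorem add_def (x y : PN N A) : x + y = cadd x y := rfl

end PN

end Pool.Agent.H.MP_2e5387_al
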